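import Pool.Agent.Work.MP_c07f0d_lc.SOS.ConjDef
import Pool.Agent.Work.MP_c07f0d_lc.AC.LevDef
import Pool.Agent.Work.MP_c07f0d_lc.AC.Subf
import Mathlib.Data.List.GetD

/-!
# Complete binary conjunctions
-/

set_option linter.unusedSectionVars false

namespace AcFrege

open FregeEF

variable {α : Type} [DecidableEq α]

theorem enumF_mem_or (S : Finset (Fm α)) (i : ℕ) : enumF S i ∈ S ∨ enumF S i = fTop := by
  unfold enumF
  by_cases h : i < S.toList.length
  · left
    rw [List.getD_eq_getElem _ _ h]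
    exact Finset.mem_toList.mp (List.getElem_mem h)
  · right
    exact List.getD_eq_default _ _ (not_lt.mp h)

theorem exists_enumF {S : Finset (Fm α)} {φ : Fm α} (h : φ ∈ S) :
    ∃ i < S.card, enumF S i = φ := by
  obtain ⟨i, hi, hφ⟩ := List.getElem_of_mem (Finset.mem_toList.mpr h)
  refine ⟨i, by rwa [← Finset.length_toList], ?_⟩
  unfold enumF
  rw [List.getD_eq_getElem _ _ hi]
  exact hφ

variable {n s d : ℕ} {Φ : Finset (Fm α)} {M : Finset (Finset (Fm α))}

theorem mem_clF {φ : Fm α} : φ ∈ clF n Φ M ↔ φ ∈ Φ ∨ φ = .bot ∨ φ = fTop ∨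
    ∃ S ∈ M, ∃ i ≤ n, ∃ k < 2 ^ (n - i), cj (enumF S) i k = φ := by
  unfold clF
  simp only [Finset.mem_union, Finset.mem_insert, Finset.mem_singleton, Finset.mem_biUnion,
    Finset.mem_range, Finset.mem_image, Nat.lt_succ_iff]
  rw [or_assoc, or_assoc]

theorem subset_clF : Φ ⊆ clF n Φ M := fun _ h => mem_clF.mpr (Or.inl h)

theorem bot_mem_clF : Fm.bot ∈ clF n Φ M := mem_clF.mpr (Or.inr (Or.inl rfl))

theorem top_mem_clF : fTop ∈ clF n Φ M := mem_clF.mpr (Or.inr (Or.inr (Or.inl rfl)))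

theorem cj_mem_clF {S : Finset (Fm α)} (hS : S ∈ M) {i k : ℕ} (hi : i ≤ n)
    (hk : k < 2 ^ (n - i)) : cj (enumF S) i k ∈ clF n Φ M :=
  mem_clF.mpr (Or.inr (Or.inr (Or.inr ⟨S, hS, i, hi, k, hk, rfl⟩)))

theorem tht_mem_clF {S : Finset (Fm α)} (hS : S ∈ M) : tht n S ∈ clF n Φ M :=
  cj_mem_clF hS le_rfl (by simp)

theorem enumF_mem_clF {S : Finset (Fm α)} (hM : S ⊆ Φ) (i : ℕ) :
    enumF S i ∈ Φ ∨ enumF S i = fTop := by
  rcases enumF_mem_or S i with h | h
  · exact Or.inl (hM h)
  · exact Or.inr h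

/-- The formulas of `clF` which are not conjunctions of height at least one. -/
theorem mem_clF' (hM : ∀ S ∈ M, S ⊆ Φ) {φ : Fm α} (h : φ ∈ clF n Φ M) :
    φ ∈ Φ ∨ φ = .bot ∨ φ = fTop ∨
      ∃ S ∈ M, ∃ i, i + 1 ≤ n ∧ ∃ k < 2 ^ (n - (i + 1)),
        .and (cj (enumF S) i (2 * k)) (cj (enumF S) i (2 * k + 1)) = φ := by
  rcases mem_clF.mp h with h | h | h | ⟨S, hS, i, hi, k, hk, h⟩
  · exact Or.inl h
  · exact Or.inr (Or.inl h)
  · exact Or.inr (Or.inr (Or.inl h))
  · cases i with
    | zero =>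
      have h1 : enumF S k = φ := h
      rcases enumF_mem_clF (hM S hS) k with h2 | h2
      · exact Or.inl (h1 ▸ h2)
      · exact Or.inr (Or.inr (Or.inl (h1 ▸ h2)))
    | succ i => exact Or.inr (Or.inr (Or.inr ⟨S, hS, i, hi, k, hk, h⟩))

theorem pclosed_clF (hΦ : PClosed Φ) (hM : ∀ S ∈ M, S ⊆ Φ) : PClosed (clF n Φ M) where
  neg := by
    intro φ h
    rcases mem_clF' hM h with h | h | h | ⟨S, hS, i, hi, k, hk, h⟩
    · exact subset_clF (hΦ.neg φ h)
    · exact absurd h (by simp)
    · unfold fTop at h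
      injection h with h
      rw [h]
      exact bot_mem_clF
    · exact absurd h (by simp)
  and := by
    intro φ ψ h
    rcases mem_clF' hM h with h | h | h | ⟨S, hS, i, hi, k, hk, h⟩
    · exact ⟨subset_clF (hΦ.and φ ψ h).1, subset_clF (hΦ.and φ ψ h).2⟩
    · exact absurd h (by simp)
    · exact absurd h (by simp [fTop])
    · injection h with h1 h2
      have e : 2 ^ (n - i) = 2 * 2 ^ (n - (i + 1)) := by
        have : n - i = (n - (i + 1)) + 1 := by omega
        rw [this, pow_succ]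
        ring
      rw [← h1, ← h2]
      exact ⟨cj_mem_clF hS (by omega) (by omega), cj_mem_clF hS (by omega) (by omega)⟩
  or := by
    intro φ ψ h
    rcases mem_clF' hM h with h | h | h | ⟨S, hS, i, hi, k, hk, h⟩
    · exact ⟨subset_clF (hΦ.or φ ψ h).1, subset_clF (hΦ.or φ ψ h).2⟩
    · exact absurd h (by simp)
    · exact absurd h (by simp [fTop])
    · exact absurd h (by simp)
  imp := by
    intro φ ψ h
    rcases mem_clF' hM h with h | h | h | ⟨S, hS, i, hi, k, hk, h⟩
    · exact ⟨subset_clF (hΦ.imp φ ψ h).1, subset_clF (hΦ.imp φ ψ h).2⟩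
    · exact absurd h (by simp)
    · exact absurd h (by simp [fTop])
    · exact absurd h (by simp)

theorem sum_two_pow (n : ℕ) : ∑ i ∈ Finset.range (n + 1), 2 ^ (n - i) ≤ 2 ^ (n + 1) := by
  induction n with
  | zero => simp
  | succ n ih =>
    rw [Finset.sum_range_succ']
    simp only [Nat.add_sub_add_right, Nat.sub_zero]
    have : (2 : ℕ) ^ (n + 1 + 1) = 2 ^ (n + 1) + 2 ^ (n + 1) := by ring
    omega

theorem card_clF_le : (clF n Φ M).card ≤ Φ.card + 2 + M.card * 2 ^ (n + 1) := by
  unfold clF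
  have h1 : (Φ ∪ {Fm.bot, fTop}).card ≤ Φ.card + 2 :=
    (Finset.card_union_le _ _).trans (Nat.add_le_add_left Finset.card_le_two _)
  have h2 : (M.biUnion fun S => (Finset.range (n + 1)).biUnion fun i =>
      (Finset.range (2 ^ (n - i))).image fun k => cj (enumF S) i k).card ≤ M.card * 2 ^ (n + 1) := by
    apply Finset.card_biUnion_le_card_mul
    intro S _
    refine le_trans Finset.card_biUnion_le (le_trans (Finset.sum_le_sum fun i _ => ?_)
      (sum_two_pow n))
    exact Finset.card_image_le.trans (le_of_eq (Finset.card_range _))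
  exact (Finset.card_union_le _ _).trans (Nat.add_le_add h1 h2)

theorem depth_fTop : depth s (fTop : Fm α) = 0 := by
  unfold fTop
  simp [depth]

theorem depth_cj {f : ℕ → Fm α} (hf : ∀ i, depth s (f i) ≤ d) (i : ℕ) : ∀ k,
    depth s (cj f i k) ≤ d + 1 ∧ (kind s (cj f i k) ≠ .and → depth s (cj f i k) ≤ d) := by
  induction i with
  | zero =>
    intro k
    exact ⟨(hf k).trans (Nat.le_succ d), fun _ => hf k⟩
  | succ i ih =>
    intro k
    have h1 := ih (2 * k)
    have h2 := ih (2 * k + 1)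
    by_cases hs : (Fm.and (cj f i (2 * k)) (cj f i (2 * k + 1))).size ≤ s
    · have h3 : depth s (cj f (i + 1) k) = 0 := depth_of_size_le hs
      rw [h3]
      exact ⟨Nat.zero_le _, fun _ => Nat.zero_le _⟩
    · have hk : kind s (cj f (i + 1) k) = .and := by
        simp only [cj, kind, if_neg hs]
      have hd : depth s (cj f (i + 1) k) =
          max (if kind s (cj f i (2 * k)) = .and then depth s (cj f i (2 * k))
            else depth s (cj f i (2 * k)) + 1)
          (if kind s (cj f i (2 * k + 1)) = .and then depth s (cj f i (2 * k + 1))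
            else depth s (cj f i (2 * k + 1)) + 1) := by
        simp only [cj, depth, if_neg hs]
      refine ⟨?_, fun h => absurd hk h⟩
      rw [hd]
      apply max_le
      · split_ifs with h
        · exact h1.1
        · exact Nat.succ_le_succ (h1.2 h)
      · split_ifs with h
        · exact h2.1
        · exact Nat.succ_le_succ (h2.2 h)

theorem depth_clF (hd : ∀ φ ∈ Φ, depth s φ ≤ d) (hM : ∀ S ∈ M, S ⊆ Φ) :
    ∀ φ ∈ clF n Φ M, depth s φ ≤ d + 1 := by
  intro φ h
  rcases mem_clF.mp h with h | h | h | ⟨S, hS, i, hi, k, hk, h⟩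
  · exact (hd φ h).trans (Nat.le_succ d)
  · rw [h]; simp [depth]
  · rw [h, depth_fTop]; exact Nat.zero_le _
  · rw [← h]
    refine (depth_cj (fun j => ?_) i k).1
    rcases enumF_mem_clF (hM S hS) j with h2 | h2
    · exact hd _ h2
    · rw [h2, depth_fTop]; exact Nat.zero_le _

/-- Small formulas are still small: the kind of a conjunction of height at least one is `and` or
`small`. -/
theorem kind_cj_succ (f : ℕ → Fm α) (i k : ℕ) :
    kind s (cj f (i + 1) k) = .and ∨ kind s (cj f (i + 1) k) = .small := by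
  simp only [cj, kind]
  split_ifs with h
  · exact Or.inr rfl
  · exact Or.inl rfl

end AcFrege
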