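import Pool.Agent.Work.MP_c07f0d_lc.Defs
import Mathlib.Data.Finset.Union
import Mathlib.Data.Finset.Card
import Mathlib.Order.Interval.Finset.Nat
import Mathlib.Algebra.Order.BigOperators.Group.Finset

/-!
# Complete binary conjunctions: definitions
-/

namespace AcFrege

open FregeEF

variable {α : Type}

/-- The true formula `¬ ⊥`. -/
def fTop : Fm α := .neg .bot

/-- The node `k` of height `n` of the complete binary conjunction of the formulas `f i`: the
conjunction of the formulas `f i` with `2 ^ n * k ≤ i < 2 ^ n * (k + 1)`. -/
def cj (f : ℕ → Fm α) : ℕ → ℕ → Fm α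
  | 0, k => f k
  | n + 1, k => .and (cj f n (2 * k)) (cj f n (2 * k + 1))

/-- The elements of `S` in some order, followed by `¬ ⊥`. -/
noncomputable def enumF (S : Finset (Fm α)) (i : ℕ) : Fm α := S.toList.getD i fTop

/-- The complete binary conjunction of height `n` of the elements of `S`. -/
noncomputable def tht (n : ℕ) (S : Finset (Fm α)) : Fm α := cj (enumF S) n 0

/-- The formulas of `Φ`, `⊥`, `¬ ⊥` and all nodes of the conjunctions of the sets of `M`. -/
noncomputable def clF [DecidableEq α] (n : ℕ) (Φ : Finset (Fm α)) (M : Finset (Finset (Fm α))) :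
    Finset (Fm α) :=
  Φ ∪ {.bot, fTop} ∪ M.biUnion fun S =>
    (Finset.range (n + 1)).biUnion fun i =>
      (Finset.range (2 ^ (n - i))).image fun k => cj (enumF S) i k

end AcFrege
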