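import Pool.Agent.Work.MP_c07f0d_lc.SOS.Tree
import Pool.Agent.Work.MP_c07f0d_lc.SOS.ConjDef
import Pool.Agent.Work.MP_c07f0d_lc.AC.SemDef

/-!
# Complete binary conjunctions in local evaluations

The value of a complete binary conjunction is reached by walking down the binary tree.
-/

namespace AcFrege

open FregeEF

variable {α Sg : Type}

/-- `θ` behaves like the conjunction of the formulas of `T`: if it is false then one of them is
false at an extension which is reached at the cost `b`, and if it is true then each of them is true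
at some extension. -/
structure ConjOf [Preorder Sg] (room : Sg → ℕ) (a₀ : Sg) (V : Fm α → Bool → Sg → Prop) (b : ℕ)
    (θ : Fm α) (T : Finset (Fm α)) : Prop where
  fls : ∀ a, a₀ ≤ a → b ≤ room a → V θ false a →
    ∃ a', a ≤ a' ∧ room a ≤ room a' + b ∧ ∃ φ ∈ T, V φ false a'
  tru : ∀ a, a₀ ≤ a → b ≤ room a → V θ true a → ∀ φ ∈ T, ∃ a', a ≤ a' ∧ V φ true a'

section Walk

variable [Preorder Sg] {room : Sg → ℕ} {a₀ : Sg} {c : ℕ} {In : Fm α → Prop}
  {V : Fm α → Bool → Sg → Prop}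

/-- Both sides of a conjunction are decided at the cost `2 c`. -/
theorem Sem.dec_and (h : Sem room a₀ c In V) {φ ψ : Fm α} (hI : In (.and φ ψ)) (hφ : In φ)
    (hψ : In ψ) {t : Bool} {a : Sg} (ha : a₀ ≤ a) (hr : 4 * c ≤ room a)
    (hv : V (.and φ ψ) t a) :
    ∃ a', a ≤ a' ∧ room a ≤ room a' + 2 * c ∧ ∃ u v, V φ u a' ∧ V ψ v a' ∧ t = (u && v) := by
  obtain ⟨b, hab, hrb, u, hu⟩ := h.dec φ a hφ ha (by omega)
  obtain ⟨b', hbb, hrb', v, hv'⟩ := h.dec ψ b hψ (ha.trans hab) (by omega)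
  refine ⟨b', hab.trans hbb, by omega, u, v, h.mono φ u b b' hφ hbb hu, hv', ?_⟩
  exact h.and φ ψ b' t u v hI (h.mono _ t a b' hI (hab.trans hbb) hv)
    (h.mono φ u b b' hφ hbb hu) hv'

/-- Walking down to a false leaf. -/
theorem Sem.walk_false (h : Sem room a₀ c In V) (hc : SubClosed In) (f : ℕ → Fm α) :
    ∀ (n k : ℕ) (a : Sg), In (cj f n k) → a₀ ≤ a → (2 * n + 3) * c ≤ room a →
      V (cj f n k) false a →
      ∃ i, k * 2 ^ n ≤ i ∧ i < (k + 1) * 2 ^ n ∧ In (f i) ∧
        ∃ a', a ≤ a' ∧ room a ≤ room a' + 2 * n * c ∧ V (f i) false a' := by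
  intro n
  induction n with
  | zero =>
    intro k a hI _ _ hv
    exact ⟨k, by simp, by simp, hI, a, le_rfl, by omega, hv⟩
  | succ n ih =>
    intro k a hI ha hr hv
    have e1 : (2 * (n + 1) + 3) * c = (2 * n + 3) * c + 2 * c := by ring
    have e3 : 3 * c ≤ (2 * n + 3) * c := Nat.mul_le_mul_right c (by omega)
    have e4 : 2 * (n + 1) * c = 2 * n * c + 2 * c := by ring
    have e5 : (2 : ℕ) ^ (n + 1) = 2 * 2 ^ n := by ring
    rw [e1] at hr
    obtain ⟨hI1, hI2⟩ := hc.and _ _ hI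
    obtain ⟨b, hab, hrb, u, v, hu, hv', huv⟩ :=
      h.dec_and (φ := cj f n (2 * k)) (ψ := cj f n (2 * k + 1)) hI hI1 hI2 ha (by omega) hv
    cases u with
    | false =>
      obtain ⟨i, hi1, hi2, hIi, a', ha', hra', hva'⟩ :=
        ih (2 * k) b hI1 (ha.trans hab) (by omega) hu
      refine ⟨i, ?_, ?_, hIi, a', hab.trans ha', by omega, hva'⟩
      · rw [e5]; nlinarith
      · rw [e5]; nlinarith
    | true =>
      have hvf : v = false := by simpa using huv.symm
      subst hvf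
      obtain ⟨i, hi1, hi2, hIi, a', ha', hra', hva'⟩ :=
        ih (2 * k + 1) b hI2 (ha.trans hab) (by omega) hv'
      refine ⟨i, ?_, ?_, hIi, a', hab.trans ha', by omega, hva'⟩
      · rw [e5]; nlinarith
      · rw [e5]; nlinarith

/-- Walking down to a given leaf of a true conjunction. -/
theorem Sem.walk_true (h : Sem room a₀ c In V) (hc : SubClosed In) (f : ℕ → Fm α) :
    ∀ (n k : ℕ) (a : Sg), In (cj f n k) → a₀ ≤ a → (2 * n + 3) * c ≤ room a →
      V (cj f n k) true a → ∀ i, k * 2 ^ n ≤ i → i < (k + 1) * 2 ^ n →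
        ∃ a', a ≤ a' ∧ V (f i) true a' := by
  intro n
  induction n with
  | zero =>
    intro k a hI _ _ hv i hi1 hi2
    have hik : i = k := by
      rw [pow_zero, mul_one] at hi1 hi2
      omega
    subst hik
    exact ⟨a, le_rfl, hv⟩
  | succ n ih =>
    intro k a hI ha hr hv i hi1 hi2
    have e1 : (2 * (n + 1) + 3) * c = (2 * n + 3) * c + 2 * c := by ring
    have e3 : 3 * c ≤ (2 * n + 3) * c := Nat.mul_le_mul_right c (by omega)
    have e5 : (2 : ℕ) ^ (n + 1) = 2 * 2 ^ n := by ring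
    rw [e1] at hr
    obtain ⟨hI1, hI2⟩ := hc.and _ _ hI
    obtain ⟨b, hab, hrb, u, v, hu, hv', huv⟩ :=
      h.dec_and (φ := cj f n (2 * k)) (ψ := cj f n (2 * k + 1)) hI hI1 hI2 ha (by omega) hv
    obtain ⟨hu1, hv1⟩ : u = true ∧ v = true := by simpa using huv.symm
    subst hu1
    subst hv1
    rw [e5] at hi1 hi2
    rcases lt_or_ge i ((2 * k + 1) * 2 ^ n) with hlt | hge
    · obtain ⟨a', ha', hva'⟩ := ih (2 * k) b hI1 (ha.trans hab) (by omega) hu i
        (by nlinarith) hlt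
      exact ⟨a', hab.trans ha', hva'⟩
    · obtain ⟨a', ha', hva'⟩ := ih (2 * k + 1) b hI2 (ha.trans hab) (by omega) hv' i hge
        (by nlinarith)
      exact ⟨a', hab.trans ha', hva'⟩

/-- The formula `¬ ⊥` is never false. -/
theorem Sem.not_top_false (h : Sem room a₀ c In V) (hI : In (fTop : Fm α)) (hb : In (.bot : Fm α))
    {a : Sg} (ha : a₀ ≤ a) (hr : 3 * c ≤ room a) (hv : V (fTop : Fm α) false a) : False := by
  obtain ⟨b, hab, _, t, ht⟩ := h.dec .bot a hb ha hr
  have h1 : t = false := by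
    cases t with
    | false => rfl
    | true => exact (h.bot b hb ht).elim
  subst h1
  have h2 := h.neg .bot b false false hI (h.mono _ _ a b hI hab hv) ht
  simp at h2

theorem enumF_eq {S : Finset (Fm α)} {i : ℕ} (hi : i < S.toList.length) :
    enumF S i = S.toList[i] := by
  simp only [enumF, List.getD_eq_getElem?_getD]
  rw [List.getElem?_eq_getElem hi]
  rfl

theorem enumF_of_le {S : Finset (Fm α)} {i : ℕ} (hi : S.toList.length ≤ i) :
    enumF S i = fTop := by
  simp only [enumF, List.getD_eq_getElem?_getD]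
  rw [List.getElem?_eq_none hi]
  rfl

theorem conjOf_tht (h : Sem room a₀ c In V) (hc : SubClosed In) {n : ℕ} {S : Finset (Fm α)}
    (hS : S.card ≤ 2 ^ n) (h1 : In (tht n S)) (h2 : In (fTop : Fm α)) :
    ConjOf room a₀ V ((2 * n + 8) * c) (tht n S) S := by
  have e1 : (2 * n + 8) * c = (2 * n + 3) * c + 5 * c := by ring
  have e2 : 2 * n * c + 3 * c = (2 * n + 3) * c := by ring
  have hlen : S.toList.length = S.card := Finset.length_toList S
  refine ⟨fun a ha hr hv => ?_, fun a ha hr hv φ hφ => ?_⟩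
  · obtain ⟨i, -, -, -, a', ha', hra', hva'⟩ := h.walk_false hc (enumF S) n 0 a h1 ha (by omega) hv
    refine ⟨a', ha', by omega, ?_⟩
    by_cases hi : i < S.toList.length
    · refine ⟨enumF S i, ?_, hva'⟩
      rw [enumF_eq hi]
      exact Finset.mem_toList.1 (List.getElem_mem hi)
    · exfalso
      rw [enumF_of_le (by omega)] at hva'
      exact h.not_top_false h2 (hc.neg _ h2) (ha.trans ha') (by omega) hva'
  · obtain ⟨i, hi, hiφ⟩ := List.getElem_of_mem (Finset.mem_toList.2 hφ)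
    obtain ⟨a', ha', hva'⟩ := h.walk_true hc (enumF S) n 0 a h1 ha (by omega) hv i (by omega)
      (by rw [zero_add, one_mul]; omega)
    refine ⟨a', ha', ?_⟩
    rw [enumF_eq hi, hiφ] at hva'
    exact hva'

theorem conjOf_self (φ : Fm α) (b : ℕ) : ConjOf room a₀ V b φ {φ} := by
  refine ⟨fun a _ _ hv => ⟨a, le_rfl, by omega, φ, Finset.mem_singleton_self φ, hv⟩,
    fun a _ _ hv ψ hψ => ?_⟩
  rw [Finset.mem_singleton] at hψ
  subst hψ
  exact ⟨a, le_rfl, hv⟩

theorem ConjOf.mono {b b' : ℕ} {θ : Fm α} {T : Finset (Fm α)} (hb : b ≤ b')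
    (h : ConjOf room a₀ V b θ T) : ConjOf room a₀ V b' θ T := by
  refine ⟨fun a ha hr hv => ?_, fun a ha hr hv => h.tru a ha (by omega) hv⟩
  obtain ⟨a', h1, h2, h3⟩ := h.fls a ha (by omega) hv
  exact ⟨a', h1, by omega, h3⟩

end Walk

variable {V : Type} [Fintype V] [DecidableEq V]

/-- The labels of conjunctions multiply. -/
theorem labels_conj {ρ : Mt V} {c : ℕ} {In : Fm α → Prop} {W : Fm α → Bool → Mt V → Prop}
    (h : Sem (fun ν : Mt V => (free ν).card) ρ c In W) {b : ℕ} {θ θ₁ θ₂ : Fm α}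
    {S S₁ S₂ : Finset (Fm α)} [DecidableEq (Fm α)]
    (C : ConjOf (fun ν : Mt V => (free ν).card) ρ W b θ S)
    (C₁ : ConjOf (fun ν : Mt V => (free ν).card) ρ W b θ₁ S₁)
    (C₂ : ConjOf (fun ν : Mt V => (free ν).card) ρ W b θ₂ S₂)
    (hS : S = S₁ ∪ S₂) (hI : ∀ φ ∈ S, In φ) (h0 : In θ) (h1 : In θ₁) (h2 : In θ₂) {κ : Mt V}
    (hκ : ρ ≤ κ) (hroom : 2 * b + 6 * c ≤ (free κ).card) {t u v : Bool}
    (ht : Lab (W θ) t κ) (hu : Lab (W θ₁) u κ) (hv : Lab (W θ₂) v κ) : t = (u && v) := by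
  have key : ∀ {θ : Fm α} {t : Bool}, In θ → Lab (W θ) t κ →
      ∃ κ', κ ≤ κ' ∧ (free κ).card ≤ (free κ').card + c ∧ W θ t κ' := by
    intro θ t hθ hlab
    obtain ⟨κ', h3, h4, u, hu⟩ := h.dec θ κ hθ hκ (by omega)
    refine ⟨κ', h3, h4, ?_⟩
    have h5 : u = t := by
      by_contra hne
      have h6 : u = !t := by cases u <;> cases t <;> simp_all
      exact hlab κ' h3 (h6 ▸ hu)
    exact h5 ▸ hu
  have hI1 : ∀ φ ∈ S₁, In φ := fun φ hφ => hI φ (by rw [hS]; exact Finset.mem_union_left _ hφ)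
  have hI2 : ∀ φ ∈ S₂, In φ := fun φ hφ => hI φ (by rw [hS]; exact Finset.mem_union_right _ hφ)
  cases t with
  | false =>
    obtain ⟨a, ha, hra, hva⟩ := key h0 ht
    obtain ⟨a', h3, h4, φ, hφ, hvφ⟩ := C.fls a (hκ.trans ha) (by omega) hva
    have aux : ∀ {θ' : Fm α} {S' : Finset (Fm α)}, In θ' → φ ∈ S' →
        ConjOf (fun ν : Mt V => (free ν).card) ρ W b θ' S' → Lab (W θ') true κ → False := by
      intro θ' S' hθ' hφ' C' hl
      obtain ⟨b', h5, h6, t, ht'⟩ := h.dec θ' a' hθ' (hκ.trans (ha.trans h3)) (by omega)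
      cases t with
      | false => exact hl b' (ha.trans (h3.trans h5)) ht'
      | true =>
        obtain ⟨a'', h7, h8⟩ := C'.tru b' (hκ.trans (ha.trans (h3.trans h5))) (by omega) ht' φ hφ'
        exact h.uniq φ a'' (hI φ hφ) h8 (h.mono φ false a' a'' (hI φ hφ) (h5.trans h7) hvφ)
    rw [hS, Finset.mem_union] at hφ
    rcases hφ with hφ | hφ
    · cases u with
      | false => rfl
      | true => exact (aux h1 hφ C₁ hu).elim
    · cases v with
      | false => simp
      | true => exact (aux h2 hφ C₂ hv).elim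
  | true =>
    have aux : ∀ {θ' : Fm α} {S' : Finset (Fm α)}, In θ' → S' ⊆ S →
        ConjOf (fun ν : Mt V => (free ν).card) ρ W b θ' S' → ¬ Lab (W θ') false κ := by
      intro θ' S' hθ' hsub C' hl
      obtain ⟨a, ha, hra, hva⟩ := key hθ' hl
      obtain ⟨a', h3, h4, φ, hφ, hvφ⟩ := C'.fls a (hκ.trans ha) (by omega) hva
      obtain ⟨b', h5, h6, t, ht'⟩ := h.dec θ a' h0 (hκ.trans (ha.trans h3)) (by omega)
      cases t with
      | false => exact ht b' (ha.trans (h3.trans h5)) ht'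
      | true =>
        obtain ⟨a'', h7, h8⟩ := C.tru b' (hκ.trans (ha.trans (h3.trans h5))) (by omega) ht' φ
          (hsub hφ)
        exact h.uniq φ a'' (hI φ (hsub hφ)) h8
          (h.mono φ false a' a'' (hI φ (hsub hφ)) (h5.trans h7) hvφ)
    cases u with
    | false => exact (aux h1 (by rw [hS]; exact Finset.subset_union_left) C₁ hu).elim
    | true =>
      cases v with
      | false => exact (aux h2 (by rw [hS]; exact Finset.subset_union_right) C₂ hv).elim
      | true => rfl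

end AcFrege
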