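import Pool.Agent.Work.MP_c07f0d_lc.SOS.SoundSos
import Pool.Agent.Work.MP_c07f0d_lc.SOS.Conj
import Pool.Agent.Work.MP_c07f0d_lc.DG.CoreDG

/-!
# The integer core of the lower bound for derivations with algebraic inferences
-/

set_option linter.unusedSectionVars false

namespace AcFrege

open FregeEF LineSize GridLine SosFrege

section

variable {α : Type} [DecidableEq α]

/-- The sets of formulas which occur as monomials, and the sets with at most two elements. -/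
noncomputable def mset (Φ : Finset (Fm α)) (M₀ : Finset (Finset (Fm α))) :
    Finset (Finset (Fm α)) :=
  M₀ ∪ ({∅} ∪ (Φ.image (fun a => {a}) ∪ (Φ ×ˢ Φ).image fun p => {p.1, p.2}))

/-- The unions of two sets. -/
noncomputable def mset2 (Φ : Finset (Fm α)) (M₀ : Finset (Finset (Fm α))) :
    Finset (Finset (Fm α)) :=
  (mset Φ M₀ ×ˢ mset Φ M₀).image fun p => p.1 ∪ p.2

variable {Φ : Finset (Fm α)} {M₀ : Finset (Finset (Fm α))}

theorem empty_mem_mset : ∅ ∈ mset Φ M₀ := by simp [mset]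

theorem single_mem_mset {a : Fm α} (ha : a ∈ Φ) : {a} ∈ mset Φ M₀ := by
  unfold mset
  rw [Finset.mem_union, Finset.mem_union, Finset.mem_union]
  exact Or.inr (Or.inr (Or.inl (Finset.mem_image_of_mem _ ha)))

theorem pair_mem_mset {a b : Fm α} (ha : a ∈ Φ) (hb : b ∈ Φ) : {a, b} ∈ mset Φ M₀ := by
  unfold mset
  rw [Finset.mem_union, Finset.mem_union, Finset.mem_union]
  exact Or.inr (Or.inr (Or.inr (Finset.mem_image.2 ⟨(a, b), Finset.mem_product.2 ⟨ha, hb⟩, rfl⟩)))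

theorem subset_mset : M₀ ⊆ mset Φ M₀ := Finset.subset_union_left

theorem mset_subset (hM : ∀ S ∈ M₀, S ⊆ Φ) : ∀ S ∈ mset Φ M₀, S ⊆ Φ := by
  intro S hS
  unfold mset at hS
  simp only [Finset.mem_union, Finset.mem_singleton, Finset.mem_image, Finset.mem_product] at hS
  rcases hS with hS | rfl | ⟨a, ha, rfl⟩ | ⟨p, hp, rfl⟩
  · exact hM S hS
  · exact Finset.empty_subset _
  · exact Finset.singleton_subset_iff.2 ha
  · exact Finset.insert_subset hp.1 (Finset.singleton_subset_iff.2 hp.2)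

theorem union_mem_mset2 {S S' : Finset (Fm α)} (hS : S ∈ mset Φ M₀) (hS' : S' ∈ mset Φ M₀) :
    S ∪ S' ∈ mset2 Φ M₀ :=
  Finset.mem_image.2 ⟨(S, S'), Finset.mem_product.2 ⟨hS, hS'⟩, rfl⟩

theorem mset2_subset (hM : ∀ S ∈ M₀, S ⊆ Φ) : ∀ S ∈ mset2 Φ M₀, S ⊆ Φ := by
  intro S hS
  unfold mset2 at hS
  rw [Finset.mem_image] at hS
  obtain ⟨p, hp, rfl⟩ := hS
  rw [Finset.mem_product] at hp
  exact Finset.union_subset (mset_subset hM _ hp.1) (mset_subset hM _ hp.2)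

theorem card_mset_le : (mset Φ M₀).card ≤ M₀.card + (1 + (Φ.card + Φ.card * Φ.card)) := by
  unfold mset
  refine (Finset.card_union_le _ _).trans (Nat.add_le_add_left ?_ _)
  refine (Finset.card_union_le _ _).trans (Nat.add_le_add (by simp) ?_)
  refine (Finset.card_union_le _ _).trans (Nat.add_le_add Finset.card_image_le ?_)
  refine Finset.card_image_le.trans (le_of_eq (Finset.card_product _ _))

theorem card_mset2_le : (mset2 Φ M₀).card ≤ (mset Φ M₀).card * (mset Φ M₀).card := by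
  unfold mset2
  exact Finset.card_image_le.trans (le_of_eq (Finset.card_product _ _))

/-- The formulas of depth at most `j` of a set closed under subformulas. -/
theorem subClosed_depth_of {P : Finset (Fm α)} (hP : PClosed P) (s j : ℕ) :
    SubClosed (fun φ => φ ∈ P ∧ depth s φ ≤ j) where
  neg φ h := ⟨hP.neg φ h.1, (depth_le_neg φ).trans h.2⟩
  and φ ψ h := ⟨⟨(hP.and φ ψ h.1).1, (depth_le_and_left φ ψ).trans h.2⟩,
    ⟨(hP.and φ ψ h.1).2, (depth_le_and_right φ ψ).trans h.2⟩⟩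
  or φ ψ h := ⟨⟨(hP.or φ ψ h.1).1, (depth_le_or_left φ ψ).trans h.2⟩,
    ⟨(hP.or φ ψ h.1).2, (depth_le_or_right φ ψ).trans h.2⟩⟩
  imp φ ψ h := ⟨⟨(hP.imp φ ψ h.1).1, (depth_le_imp_left φ ψ).trans h.2⟩,
    ⟨(hP.imp φ ψ h.1).2, (depth_le_imp_right φ ψ).trans h.2⟩⟩

end

private lemma exists_rsize3 (R : List Rule) : ∃ K, ∀ r ∈ R, rsize r ≤ K := by
  refine ⟨(R.map rsize).sum, fun r hr => ?_⟩
  exact List.single_le_sum (by simp) _ (List.mem_map_of_mem hr)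

private lemma free_ident_card3 {N : ℕ} : (free (ident : Mt (Fin N))).card = N := by
  have h1 : free (ident : Mt (Fin N)) = Finset.univ := by
    ext v
    rw [mem_free]
    simp [ident]
  rw [h1, Finset.card_univ, Fintype.card_fin]

private lemma room_sos {K n s y C : ℕ} (hC : 2000000000000 + 4 * K + 16 ≤ C) (hn : n ≤ s)
    (hs : 1 ≤ s) (hy : C * s ^ 6 ≤ y) :
    2 * ((2 * n + 8) * (4 * s)) + 6 * (4 * s) + 6 * (4 * s * (4 * s)) ≤ y ∧
      170723 * (14 * (4 * s * (4 * s)) + 1) ^ 3 + 4 * s ≤ y ∧ (K + 4) * (4 * s) ≤ y ∧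
      100 * s ^ 2 ≤ y := by
  have h1 : s ≤ s ^ 6 := Nat.le_self_pow (by norm_num) s
  have h2 : s ^ 2 ≤ s ^ 6 := Nat.pow_le_pow_right hs (by norm_num)
  have h3 : (2000000000000 + 4 * K + 16) * s ^ 6 ≤ y := (Nat.mul_le_mul_right _ hC).trans hy
  have h4 : n * s ≤ s ^ 2 := by
    rw [sq]
    exact Nat.mul_le_mul_right _ hn
  have h5 : 1 ≤ s ^ 2 := Nat.one_le_pow _ _ hs
  have h7 : 2000000000000 * s ^ 6 + (4 * K + 16) * s ^ 6 ≤ y := by
    refine le_trans (le_of_eq ?_) h3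
    ring
  refine ⟨?_, ?_, ?_, ?_⟩
  · have e : 2 * ((2 * n + 8) * (4 * s)) + 6 * (4 * s) + 6 * (4 * s * (4 * s)) =
        16 * (n * s) + 88 * s + 96 * s ^ 2 := by ring
    rw [e]
    omega
  · have h6 : (14 * (4 * s * (4 * s)) + 1) ^ 3 ≤ 11390625 * s ^ 6 := by
      calc (14 * (4 * s * (4 * s)) + 1) ^ 3 ≤ (225 * s ^ 2) ^ 3 := by
            refine Nat.pow_le_pow_left ?_ 3
            have e : 14 * (4 * s * (4 * s)) = 224 * s ^ 2 := by ring
            omega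
        _ = 11390625 * s ^ 6 := by ring
    have h8 : 170723 * (14 * (4 * s * (4 * s)) + 1) ^ 3 ≤ 170723 * (11390625 * s ^ 6) :=
      Nat.mul_le_mul_left _ h6
    omega
  · calc (K + 4) * (4 * s) = (4 * K + 16) * s := by ring
      _ ≤ (4 * K + 16) * s ^ 6 := Nat.mul_le_mul_left _ h1
      _ ≤ y := by omega
  · omega

/-- **The integer core of the lower bound.** -/
theorem core_sos (F : FregeSystem) {C₁ C₂ : ℕ} (hlink : LinkP C₁) (hbase : BaseP C₁ C₂) :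
    ∃ C₃ : ℕ, 1 ≤ C₃ ∧ ∀ {α : Type} [DecidableEq α] (M k d y s S n : ℕ) (hM : 1 ≤ M) (Q η : ℝ)
      (Γ L : List (Fm α)) (Φ : Finset (Fm α)) (M₀ : Finset (Finset (Fm α)))
      (hcl : Closed (· ∈ smallOf (clF n Φ (mset2 Φ M₀)) S)), Odd y → y ^ 5 ^ (d + 1) ≤ M →
      1 ≤ k → 1 ≤ S → C₃ * k ^ 9 ≤ s → (clF n Φ (mset2 Φ M₀)).card < 2 ^ s → C₃ * s ^ 6 ≤ y →
      0 ≤ η →
      η * (3 * (M : ℝ) ^ 3 + 2) ^ (2 * k) ≤
        (1 / ((y ^ 5 ^ (d + 1) : ℕ) : ℝ)) ^ (C₂ * (2 * k)) →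
      (∃ q, Fam (gridNet 3 M hM) gcharge (relOf (smallOf (clF n Φ (mset2 Φ M₀)) S) hcl Γ) k 0 Q η q) →
      (∀ φ ∈ Γ, φ.size ≤ S) → PClosed Φ → (∀ S' ∈ M₀, S' ⊆ Φ) → Φ.card ≤ 2 ^ n → n ≤ s →
      (∀ φ ∈ Φ, depth S φ ≤ d) → IsMonDeriv F.rules Γ Φ M₀ L → (∀ φ ∈ L, φ ∈ Φ) →
      Fm.bot ∉ L := by
  classical
  obtain ⟨K, hK⟩ := exists_rsize3 F.rules
  refine ⟨2000000000000 + 4 * K + 16 + C₁ + 512 * C₂, by omega, ?_⟩
  intro α _ M k d y s S n hM Q η Γ L Φ M₀ hcl hodd hyM hk hS hks hcard hsy hη hηN hq hax hΦc hM₀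
    hΦn hns hdepth hL hLΦ
  obtain ⟨q, hq⟩ := hq
  have hM2 := mset2_subset (Φ := Φ) hM₀
  set P := clF n Φ (mset2 Φ M₀) with hP
  have hPcl : PClosed P := pclosed_clF hΦc hM2
  set N := y ^ 5 ^ (d + 1) with hN
  have hNodd : Odd N := hodd.pow
  have hyN : y ≤ N := Nat.le_self_pow (by positivity) y
  have hk9 : k ≤ k ^ 9 := Nat.le_self_pow (by norm_num) k
  have hk9' : 1 ≤ k ^ 9 := Nat.one_le_pow _ _ hk
  have hs1 : 1 ≤ s := by
    calc 1 ≤ (2000000000000 + 4 * K + 16 + C₁ + 512 * C₂) * k ^ 9 :=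
          Nat.mul_pos (by omega) (by omega)
      _ ≤ s := hks
  obtain ⟨hr1, hr2, hr3, hr4⟩ := room_sos (K := K) (n := n) (by omega) hns hs1 hsy
  have h100 : 100 * s ^ 2 ≤ N := hr4.trans hyN
  have hCk : C₁ * k ≤ N := by
    calc C₁ * k ≤ (2000000000000 + 4 * K + 16 + C₁ + 512 * C₂) * k ^ 9 :=
          Nat.mul_le_mul (by omega) hk9
      _ ≤ s := hks
      _ ≤ 100 * s ^ 2 := by
          have : s ≤ s ^ 2 := Nat.le_self_pow (by norm_num) s
          omega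
      _ ≤ N := h100
  -- the family of functions of matchings
  have hfam := mfam_of_fam (N := N) hlink hM hNodd hyM hk hCk hcl hη hq
  -- the bottom level
  obtain ⟨A, hlev, hA⟩ := hbase α N (2 * k) s S P Γ _ _ hNodd (by omega) hS hPcl
    (by
      refine le_trans ?_ hks
      have e : C₂ * (2 * k) ^ 9 = 512 * C₂ * k ^ 9 := by ring
      rw [e]
      exact Nat.mul_le_mul_right _ (by omega)) h100 (by positivity) hηN hfam
  -- the levels
  obtain ⟨ρ, A', hfree, -, hlev', hA'⟩ := lev_iter hS hPcl (q := s) (u := y) (d + 1)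
    (by omega) hodd hcard ident A (by rw [free_ident_card3]) hlev
  have hsem := sem_of_lev hS hPcl hlev'
  have hsub := subClosed_depth_of hPcl S (d + 1)
  have hΦP : ∀ φ ∈ Φ, φ ∈ P ∧ depth S φ ≤ d + 1 := fun φ hφ =>
    ⟨subset_clF hφ, (hdepth φ hφ).trans (Nat.le_succ d)⟩
  have hclF : ∀ φ ∈ P, φ ∈ P ∧ depth S φ ≤ d + 1 := fun φ hφ =>
    ⟨hφ, depth_clF hdepth hM2 φ hφ⟩
  have hcardV : Odd (Fintype.card (Fin N)) := by
    rw [Fintype.card_fin]
    exact hNodd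
  obtain ⟨f, w, hw⟩ := exists_ydata hlev'
  have hworld := world_ok (Φ := Φ) (M := mset Φ M₀) (M₂ := mset2 Φ M₀) (θ := tht n)
    (b₀ := (2 * n + 8) * (4 * s)) hcardV hsem hw hΦP hΦc hM2
    (fun S' hS' => hclF _ (tht_mem_clF hS'))
    (fun S' hS' => conjOf_tht hsem hsub ((Finset.card_le_card (hM2 S' hS')).trans hΦn)
      (hclF _ (tht_mem_clF hS')) (hclF _ top_mem_clF))
    empty_mem_mset (fun a ha => single_mem_mset ha) (fun a ha b hb => pair_mem_mset ha hb)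
    (fun S₁ h1 S₂ h2 => union_mem_mset2 h1 h2) (by rw [hfree]; exact hr1)
    (by rw [hfree]; exact hr2)
  have hnf := mon_sound hsem hsub hΦP hworld subset_mset F.rules F.sound hK
    (by rw [hfree]; exact hr3) hL hLΦ (by
      intro φ hφ hφΦ a _ hV
      obtain ⟨μ, hμ, -⟩ := hV
      have hsz : φ.size ≤ S := hax φ hφ
      have hφP := (hΦP φ hφΦ).1
      rw [hA' φ hφP (le_of_eq (depth_of_size_le hsz)), hA φ hφ hφP (kind_of_size_le hsz)] at hμ
      exact hμ)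
  intro hbot
  have hIb := hΦP _ (hLΦ _ hbot)
  obtain ⟨b, hb1, _, t, ht⟩ := hsem.dec .bot ρ hIb (le_refl ρ) (by
    show 3 * (4 * s) ≤ (free ρ).card
    rw [hfree]
    refine le_trans ?_ hr3
    exact Nat.mul_le_mul_right _ (by omega))
  cases t with
  | true => exact hsem.bot _ hIb ht
  | false => exact hnf _ hbot b hb1 ht

end AcFrege
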