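import Pool.Agent.Work.MP_c07f0d_lc.SOS.MonDef
import Pool.Agent.Work.MP_c07f0d_lc.Basic

/-!
# Frege derivations with algebraic inferences: the supports of the monomials

The lines of a derivation can be made distinct; the supports of all the monomials of its algebraic
inferences are then at most `card Φ * T` sets.
-/

namespace AcFrege

open FregeEF MvPolynomial SosFrege

variable {α : Type}

/-- All monomials of `g` have a support in `M₀`. -/
def MonIn {K : Type} [CommRing K] (M₀ : Finset (Finset (Fm α))) (g : MvPolynomial (Fm α) K) :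
    Prop :=
  ∀ m ∈ g.support, m.support ∈ M₀

/-- An algebraic inference in which the supports of all monomials are in `M₀`. -/
def AlgMon (K : Type) [CommRing K] (Φ : Finset (Fm α)) (M₀ : Finset (Finset (Fm α)))
    (Δ : List (Fm α)) (φ : Fm α) : Prop :=
  ∃ H : List (MvPolynomial (Fm α) K × MvPolynomial (Fm α) K),
    (∀ q ∈ H, MonIn M₀ q.1 ∧ TruthRel K Φ Δ q.2) ∧
    X φ - 1 = (H.map fun q => q.1 * q.2).sum

/-- A sum-of-squares inference in which the supports of all monomials are in `M₀`. -/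
def SosMon (Φ : Finset (Fm α)) (M₀ : Finset (Finset (Fm α))) (Δ : List (Fm α)) (φ : Fm α) :
    Prop :=
  ∃ (G : List (MvPolynomial (Fm α) ℝ)) (H : List (MvPolynomial (Fm α) ℝ × MvPolynomial (Fm α) ℝ)),
    (∀ g ∈ G, MonIn M₀ g) ∧ (∀ q ∈ H, MonIn M₀ q.1 ∧ TruthRel ℝ Φ Δ q.2) ∧
    X φ - 1 = (G.map fun g => g ^ 2).sum + (H.map fun q => q.1 * q.2).sum

theorem MonIn.mono {K : Type} [CommRing K] {M M' : Finset (Finset (Fm α))}
    {g : MvPolynomial (Fm α) K} (h : MonIn M g) (hM : M ⊆ M') : MonIn M' g :=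
  fun m hm => hM (h m hm)

theorem truthRel_mono {K : Type} [CommRing K] {Φ : Finset (Fm α)} {Δ Δ' : List (Fm α)}
    {p : MvPolynomial (Fm α) K} (h : TruthRel K Φ Δ p) (hΔ : ∀ ψ ∈ Δ, ψ ∈ Δ') :
    TruthRel K Φ Δ' p := by
  cases h with
  | bool φ h => exact .bool φ h
  | bot h => exact .bot h
  | neg a h => exact .neg a h
  | and a b h => exact .and a b h
  | or a b h => exact .or a b h
  | imp a b h => exact .imp a b h
  | hyp ψ h => exact .hyp ψ (hΔ ψ h)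

theorem AlgMon.mono {K : Type} [CommRing K] {Φ : Finset (Fm α)} {M M' : Finset (Finset (Fm α))}
    {Δ Δ' : List (Fm α)} {φ : Fm α} (h : AlgMon K Φ M Δ φ) (hM : M ⊆ M')
    (hΔ : ∀ ψ ∈ Δ, ψ ∈ Δ') : AlgMon K Φ M' Δ' φ := by
  obtain ⟨H, h1, h2⟩ := h
  exact ⟨H, fun q hq => ⟨(h1 q hq).1.mono hM, truthRel_mono (h1 q hq).2 hΔ⟩, h2⟩

theorem SosMon.mono {Φ : Finset (Fm α)} {M M' : Finset (Finset (Fm α))}
    {Δ Δ' : List (Fm α)} {φ : Fm α} (h : SosMon Φ M Δ φ) (hM : M ⊆ M')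
    (hΔ : ∀ ψ ∈ Δ, ψ ∈ Δ') : SosMon Φ M' Δ' φ := by
  obtain ⟨G, H, h0, h1, h2⟩ := h
  exact ⟨G, H, fun g hg => (h0 g hg).mono hM,
    fun q hq => ⟨(h1 q hq).1.mono hM, truthRel_mono (h1 q hq).2 hΔ⟩, h2⟩

theorem IsMonDeriv.mono {R : List Rule} {Γ : List (Fm α)} {Φ : Finset (Fm α)}
    {M M' : Finset (Finset (Fm α))} {L : List (Fm α)} (h : IsMonDeriv R Γ Φ M L)
    (hM : M ⊆ M') : IsMonDeriv R Γ Φ M' L := by
  induction h with
  | nil => exact .nil
  | hyp _ hφ ih => exact .hyp ih hφ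
  | step _ hφ ih => exact .step ih hφ
  | sos G H _ h0 h1 h2 ih =>
    exact .sos G H ih (fun g hg m hm => hM (h0 g hg m hm))
      (fun q hq => ⟨fun m hm => hM ((h1 q hq).1 m hm), (h1 q hq).2⟩) h2
  | alg K hK H _ h1 h2 ih =>
    exact .alg K hK H ih (fun q hq => ⟨fun m hm => hM ((h1 q hq).1 m hm), (h1 q hq).2⟩) h2

theorem IsMonDeriv.sos' {R : List Rule} {Γ : List (Fm α)} {Φ : Finset (Fm α)}
    {M : Finset (Finset (Fm α))} {L : List (Fm α)} {φ : Fm α} (h : IsMonDeriv R Γ Φ M L)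
    (hφ : SosMon Φ M L φ) : IsMonDeriv R Γ Φ M (φ :: L) := by
  obtain ⟨G, H, h0, h1, h2⟩ := hφ
  exact .sos G H h h0 h1 h2

theorem IsMonDeriv.alg' {R : List Rule} {Γ : List (Fm α)} {Φ : Finset (Fm α)}
    {M : Finset (Finset (Fm α))} {L : List (Fm α)} {φ : Fm α} (K : Type) [CommRing K]
    (hK : ∀ m : ℕ, (2 : K) ^ m ≠ 0) (h : IsMonDeriv R Γ Φ M L)
    (hφ : AlgMon K Φ M L φ) : IsMonDeriv R Γ Φ M (φ :: L) := by
  obtain ⟨H, h1, h2⟩ := hφ
  exact .alg K hK H h h1 h2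

open Classical in
/-- The supports of the monomials of a polynomial. -/
noncomputable def monSupp {K : Type} [CommRing K] (g : MvPolynomial (Fm α) K) :
    Finset (Finset (Fm α)) :=
  g.support.image fun m => m.support

theorem monIn_monSupp {K : Type} [CommRing K] (g : MvPolynomial (Fm α) K) :
    MonIn (monSupp g) g :=
  fun m hm => by
    classical
    exact Finset.mem_image.2 ⟨m, hm, rfl⟩

theorem card_monSupp_le {K : Type} [CommRing K] (g : MvPolynomial (Fm α) K) :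
    (monSupp g).card ≤ nmon g := by
  classical
  exact Finset.card_image_le

theorem subset_of_mem_monSupp {K : Type} [CommRing K] {Φ : Finset (Fm α)}
    {g : MvPolynomial (Fm α) K} (hg : Over Φ g) : ∀ S ∈ monSupp g, S ⊆ Φ := by
  classical
  intro S hS φ hφ
  obtain ⟨m, hm, rfl⟩ := Finset.mem_image.1 hS
  exact hg φ (mem_vars_iff_mem_support φ |>.2 ⟨m, hm, hφ⟩)

open Classical in
/-- The supports of the monomials of a list of polynomials. -/
noncomputable def monSuppL {K : Type} [CommRing K] (G : List (MvPolynomial (Fm α) K)) :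
    Finset (Finset (Fm α)) :=
  G.toFinset.biUnion monSupp

theorem monIn_monSuppL {K : Type} [CommRing K] {G : List (MvPolynomial (Fm α) K)}
    {g : MvPolynomial (Fm α) K} (hg : g ∈ G) : MonIn (monSuppL G) g := by
  classical
  exact (monIn_monSupp g).mono (Finset.subset_biUnion_of_mem monSupp (List.mem_toFinset.2 hg))

theorem card_monSuppL_le {K : Type} [CommRing K] (G : List (MvPolynomial (Fm α) K)) :
    (monSuppL G).card ≤ (G.map fun g => nmon g).sum := by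
  classical
  induction G with
  | nil => simp [monSuppL]
  | cons g G ih =>
    have h : monSuppL (g :: G) = monSupp g ∪ monSuppL G := by
      ext S
      simp [monSuppL, Finset.mem_union, Finset.mem_biUnion]
    rw [h, List.map_cons, List.sum_cons]
    exact (Finset.card_union_le _ _).trans (Nat.add_le_add (card_monSupp_le g) ih)

theorem subset_of_mem_monSuppL {K : Type} [CommRing K] {Φ : Finset (Fm α)}
    {G : List (MvPolynomial (Fm α) K)} (hG : ∀ g ∈ G, Over Φ g) : ∀ S ∈ monSuppL G, S ⊆ Φ := by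
  classical
  intro S hS
  obtain ⟨g, hg, hS⟩ := Finset.mem_biUnion.1 hS
  exact subset_of_mem_monSupp (hG g (List.mem_toFinset.1 hg)) S hS

/-- The supports of the monomials of an algebraic inference. -/
theorem algMon_of_algInfers {K : Type} [CommRing K] {Φ : Finset (Fm α)} {T : ℕ}
    {Δ : List (Fm α)} {φ : Fm α} (h : AlgInfers K Φ T Δ φ) :
    ∃ M : Finset (Finset (Fm α)), M.card ≤ T ∧ (∀ S ∈ M, S ⊆ Φ) ∧ AlgMon K Φ M Δ φ := by
  obtain ⟨H, h1, h2, h3⟩ := h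
  refine ⟨monSuppL (H.map fun q => q.1), ?_, ?_, H, fun q hq => ⟨?_, (h1 q hq).2⟩, h3⟩
  · refine (card_monSuppL_le _).trans ?_
    rw [List.map_map]
    exact h2
  · refine subset_of_mem_monSuppL fun g hg => ?_
    obtain ⟨q, hq, rfl⟩ := List.mem_map.1 hg
    exact (h1 q hq).1
  · exact monIn_monSuppL (List.mem_map.2 ⟨q, hq, rfl⟩)

/-- The supports of the monomials of a sum-of-squares inference. -/
theorem sosMon_of_sosInfers {Φ : Finset (Fm α)} {T : ℕ}
    {Δ : List (Fm α)} {φ : Fm α} (h : SosInfers Φ T Δ φ) :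
    ∃ M : Finset (Finset (Fm α)), M.card ≤ T ∧ (∀ S ∈ M, S ⊆ Φ) ∧ SosMon Φ M Δ φ := by
  classical
  obtain ⟨G, H, h0, h1, h2, h3⟩ := h
  refine ⟨monSuppL G ∪ monSuppL (H.map fun q => q.1), ?_, ?_, G, H, fun g hg => ?_,
    fun q hq => ⟨?_, (h1 q hq).2⟩, h3⟩
  · refine (Finset.card_union_le _ _).trans ((Nat.add_le_add (card_monSuppL_le _)
      (card_monSuppL_le _)).trans ?_)
    rw [List.map_map]
    exact h2
  · intro S hS
    rcases Finset.mem_union.1 hS with hS | hS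
    · exact subset_of_mem_monSuppL h0 S hS
    · refine subset_of_mem_monSuppL (fun g hg => ?_) S hS
      obtain ⟨q, hq, rfl⟩ := List.mem_map.1 hg
      exact (h1 q hq).1
  · exact (monIn_monSuppL hg).mono Finset.subset_union_left
  · exact (monIn_monSuppL (List.mem_map.2 ⟨q, hq, rfl⟩)).mono Finset.subset_union_right

/-- A derivation can be replaced by one without repeated lines. -/
theorem exists_mons_nodup {R : List Rule} {Γ : List (Fm α)} {Φ : Finset (Fm α)} {T : ℕ}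
    {L : List (Fm α)} (hL : IsAlgDeriv R Γ Φ T L) :
    ∃ (L' : List (Fm α)) (M₀ : Finset (Finset (Fm α))), L'.Nodup ∧ (∀ φ, φ ∈ L ↔ φ ∈ L') ∧
      M₀.card ≤ L'.length * T ∧ (∀ S ∈ M₀, S ⊆ Φ) ∧ IsMonDeriv R Γ Φ M₀ L' := by
  classical
  have add : ∀ {φ : Fm α} {L L' : List (Fm α)} {M₀ M : Finset (Finset (Fm α))}, L'.Nodup →
      (∀ φ, φ ∈ L ↔ φ ∈ L') → M₀.card ≤ L'.length * T → (∀ S ∈ M₀, S ⊆ Φ) →
      IsMonDeriv R Γ Φ M₀ L' → M.card ≤ T → (∀ S ∈ M, S ⊆ Φ) →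
      (IsMonDeriv R Γ Φ (M₀ ∪ M) L' → IsMonDeriv R Γ Φ (M₀ ∪ M) (φ :: L')) →
      ∃ (L'' : List (Fm α)) (M₁ : Finset (Finset (Fm α))), L''.Nodup ∧
        (∀ ψ, ψ ∈ φ :: L ↔ ψ ∈ L'') ∧ M₁.card ≤ L''.length * T ∧ (∀ S ∈ M₁, S ⊆ Φ) ∧
        IsMonDeriv R Γ Φ M₁ L'' := by
    intro φ L L' M₀ M h1 h2 h3 h4 h5 h6 h7 h8
    by_cases hφ : φ ∈ L'
    · refine ⟨L', M₀, h1, fun ψ => ?_, h3, h4, h5⟩
      rw [List.mem_cons, h2 ψ]
      exact ⟨fun h => h.elim (fun h => h ▸ hφ) id, Or.inr⟩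
    · refine ⟨φ :: L', M₀ ∪ M, List.nodup_cons.2 ⟨hφ, h1⟩, fun ψ => ?_, ?_, fun S hS => ?_,
        h8 (h5.mono Finset.subset_union_left)⟩
      · rw [List.mem_cons, List.mem_cons, h2 ψ]
      · rw [List.length_cons, Nat.add_mul, Nat.one_mul]
        exact (Finset.card_union_le _ _).trans (Nat.add_le_add h3 h6)
      · rcases Finset.mem_union.1 hS with hS | hS
        · exact h4 S hS
        · exact h7 S hS
  induction hL with
  | nil => exact ⟨[], ∅, List.nodup_nil, fun _ => Iff.rfl, by simp, by simp, .nil⟩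
  | hyp _ hφ ih =>
    obtain ⟨L', M₀, h1, h2, h3, h4, h5⟩ := ih
    exact add (M := ∅) h1 h2 h3 h4 h5 (by simp) (by simp) fun h => .hyp h hφ
  | step _ hφ ih =>
    obtain ⟨L', M₀, h1, h2, h3, h4, h5⟩ := ih
    exact add (M := ∅) h1 h2 h3 h4 h5 (by simp) (by simp) fun h =>
      .step h (hφ.mono fun x hx => (h2 x).1 hx)
  | sos _ hφ ih =>
    obtain ⟨L', M₀, h1, h2, h3, h4, h5⟩ := ih
    obtain ⟨M, hM1, hM2, hM3⟩ := sosMon_of_sosInfers hφ
    exact add h1 h2 h3 h4 h5 hM1 hM2 fun h =>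
      .sos' h (hM3.mono Finset.subset_union_right fun x hx => (h2 x).1 hx)
  | alg K hK _ hφ ih =>
    obtain ⟨L', M₀, h1, h2, h3, h4, h5⟩ := ih
    obtain ⟨M, hM1, hM2, hM3⟩ := algMon_of_algInfers hφ
    exact add h1 h2 h3 h4 h5 hM1 hM2 fun h =>
      .alg' K hK h (hM3.mono Finset.subset_union_right fun x hx => (h2 x).1 hx)

/-- The supports of the monomials of a derivation all of whose lines are in `Φ`. -/
theorem exists_mons {R : List Rule} {Γ : List (Fm α)} {Φ : Finset (Fm α)} {T : ℕ}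
    {L : List (Fm α)} (hL : IsAlgDeriv R Γ Φ T L) (hLΦ : ∀ φ ∈ L, φ ∈ Φ) :
    ∃ (L' : List (Fm α)) (M₀ : Finset (Finset (Fm α))), (∀ φ ∈ L, φ ∈ L') ∧ (∀ φ ∈ L', φ ∈ Φ) ∧
      M₀.card ≤ Φ.card * T ∧ (∀ S ∈ M₀, S ⊆ Φ) ∧ IsMonDeriv R Γ Φ M₀ L' := by
  classical
  obtain ⟨L', M₀, h1, h2, h3, h4, h5⟩ := exists_mons_nodup hL
  refine ⟨L', M₀, fun φ hφ => (h2 φ).1 hφ, fun φ hφ => hLΦ φ ((h2 φ).2 hφ), ?_, h4, h5⟩
  refine h3.trans (Nat.mul_le_mul_right _ ?_)
  rw [← List.toFinset_card_of_nodup h1]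
  exact Finset.card_le_card fun φ hφ => hLΦ φ ((h2 φ).2 (List.mem_toFinset.1 hφ))

end AcFrege
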