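import Pool.Agent.Work.MP_c07f0d_lc.DG.ParDG

/-!
# The parameters for the derivations with algebraic inferences
-/

set_option linter.unusedSectionVars false

namespace AcFrege

open FregeEF LineSize GridLine

/-- `params_dg` with a bound `T` of the number of formulas instead of the number itself. -/
theorem params_dgT (hchain : ChainP) (C₂ e₁ e₂ : ℕ) (he₁ : 1 ≤ e₁) (he₂ : 1 ≤ e₂) (ε : ℝ)
    (h0 : 0 < ε) (h1 : ε < 1) :
    ∃ (D w : ℕ) (δ : ℝ), 4 ≤ D ∧ 0 < δ ∧ ∀ C₃ : ℕ, 1 ≤ C₃ → ∃ c : ℕ, D + 2 ≤ c ∧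
      ∀ u d : ℕ, c ^ 5 ^ d ≤ u → ∀ (P : Finset (Fm (GE D (u ^ (w + 2))))) (hP : PClosed P)
        (S : ℕ) (hS : 1 ≤ S) (hM : 1 ≤ u ^ 2) (T : ℕ),
        (S : ℝ) ≤ (Fintype.card (GE D (u ^ (w + 2))) : ℝ) ^ (2 - ε) →
        P.card ≤ T →
        (T : ℝ) ≤ 2 ^ ((Fintype.card (GE D (u ^ (w + 2))) : ℝ) ^ (δ / 5 ^ d)) →
        ∃ (k s y : ℕ) (Q η : ℝ), Odd y ∧ y ^ 5 ^ d ≤ u ^ 2 ∧ 1 ≤ k ∧ C₃ * k ^ e₁ ≤ s ∧
          T < 2 ^ s ∧ C₃ * s ^ e₂ ≤ y ∧ 0 ≤ η ∧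
          η * (3 * ((u ^ 2 : ℕ) : ℝ) ^ 3 + 2) ^ (2 * k) ≤
            (1 / ((y ^ 5 ^ d : ℕ) : ℝ)) ^ (C₂ * (2 * k)) ∧
          ∃ q, Fam (gridNet 3 (u ^ 2) hM) gcharge
            (relOf (smallOf P S) (closed_smallOf hP hS) (gridAxioms D (u ^ (w + 2)))) k 0 Q η q := by
  obtain ⟨D, w, u₀, hD, hch⟩ := hchain (8 + 2 * C₂) ε h0 h1
  obtain ⟨δ, hδ, hpar⟩ := exists_par_dg ((w + 2) * D) e₁ e₂ he₁ he₂
  refine ⟨D, w, δ, hD, hδ, fun C₃ hC₃ => ?_⟩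
  obtain ⟨C, hC⟩ : ∃ C : ℕ, C = C₃ + (6 * (w + 2) + 1) + 18 := ⟨_, rfl⟩
  obtain ⟨U, hU⟩ := hpar C (by omega)
  refine ⟨u₀ + U + D + 2, by omega, fun u d hd P hP S hS hM T hSn hPT hcon => ?_⟩
  have hcu : u₀ + U + D + 2 ≤ u := (Nat.le_self_pow (by positivity) _).trans hd
  have hu2 : 2 ≤ u := by omega
  obtain ⟨hun, hnup⟩ := nvar_dg (w := w) hD (by omega : D + 2 ≤ u)
  set n := Fintype.card (GE D (u ^ (w + 2))) with hn
  have hn1 : 1 ≤ n := by omega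
  have hdU : U ^ 5 ^ d ≤ u := (Nat.pow_le_pow_left (by omega) _).trans hd
  obtain ⟨y, k₀, s, hodd, _, hyM, hk₀, hT, hs, hTs, hsy⟩ :=
    hU (5 ^ d) (Nat.one_le_pow _ _ (by norm_num)) u n hdU hn1 hnup T (by
      refine hcon.trans (le_of_eq ?_)
      push_cast
      rfl)
  obtain ⟨k, hk⟩ : ∃ k : ℕ, k = (6 * (w + 2) + 1) * k₀ := ⟨_, rfl⟩
  have hk1 : 1 ≤ k := by
    rw [hk]
    exact Nat.mul_pos (by omega) hk₀
  have hkC : k ≤ C * k₀ := by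
    rw [hk]
    exact Nat.mul_le_mul_right _ (by omega)
  have hks : C₃ * k ^ e₁ ≤ s := by
    rw [hs]
    exact Nat.mul_le_mul (by omega) (Nat.pow_le_pow_left hkC _)
  have hks' : k ≤ s := by
    calc k ≤ k ^ e₁ := Nat.le_self_pow (by omega) k
      _ ≤ C₃ * k ^ e₁ := Nat.le_mul_of_pos_left _ hC₃
      _ ≤ s := hks
  have hsy' : s ≤ y := by
    calc s ≤ s ^ e₂ := Nat.le_self_pow (by omega) s
      _ ≤ C * s ^ e₂ := Nat.le_mul_of_pos_left _ (by omega)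
      _ ≤ y := hsy
  have hyu : y ≤ u := (Nat.le_self_pow (by positivity) y).trans hyM
  have hku : k ≤ u := by omega
  have huu : u ≤ u ^ 2 := Nat.le_self_pow (by norm_num) u
  have hcardS : (smallOf P S).card ≤ T :=
    (Finset.card_le_card (Finset.filter_subset _ _)).trans hPT
  have hx : (6 * ((3 * (T + 1) : ℕ) : ℝ)) ^ (w + 2) * 2 ≤ 2 ^ k := by
    have e1 : 6 * (3 * (T + 1)) ≤ 2 ^ k₀ := by
      calc 6 * (3 * (T + 1)) = 18 * (T + 1) := by ring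
        _ ≤ C * (T + 1) := Nat.mul_le_mul_right _ (by omega)
        _ ≤ 2 ^ k₀ := hT.le
    have e2 : (6 * (3 * (T + 1))) ^ (w + 2) * 2 ≤ 2 ^ k := by
      calc (6 * (3 * (T + 1))) ^ (w + 2) * 2 ≤ (2 ^ k₀) ^ (w + 2) * 2 :=
            Nat.mul_le_mul_right _ (Nat.pow_le_pow_left e1 _)
        _ = 2 ^ (k₀ * (w + 2) + 1) := by rw [← pow_mul, pow_succ]
        _ ≤ 2 ^ k := by
            refine Nat.pow_le_pow_right (by norm_num) ?_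
            rw [hk]
            nlinarith
    exact_mod_cast e2
  obtain ⟨Q, q, hq⟩ := hch u (by omega) hM (smallOf P S) (closed_smallOf hP hS) (by
    intro φ hφ
    rw [mem_smallOf, kind_eq_small_iff hS] at hφ
    have h3 : (φ.size : ℝ) ≤ (S : ℝ) := by exact_mod_cast hφ.2
    exact h3.trans hSn) k (3 * (T + 1)) hk1 hku (by omega) (by omega) hx
  refine ⟨k, s, y, Q, _, hodd, hyM.trans huu, hk1, hks, ?_, ?_, by positivity,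
    err_dg hu2 (Nat.one_le_pow _ _ hodd.pos) (hyM.trans huu), q, hq⟩
  · have h2 : T ≤ C * (T + 1) := (Nat.le_succ _).trans (Nat.le_mul_of_pos_left _ (by omega))
    exact lt_of_le_of_lt h2 hTs
  · exact le_trans (Nat.mul_le_mul_right _ (by omega)) hsy

/-- **The parameters for the derivations with algebraic inferences.**  The set `P` may have
`1000 * T ^ 8` elements, and there is one more level. -/
theorem params_sos (hchain : ChainP) (C₂ e₁ e₂ : ℕ) (he₁ : 1 ≤ e₁) (he₂ : 1 ≤ e₂) (ε : ℝ)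
    (h0 : 0 < ε) (h1 : ε < 1) :
    ∃ (D w : ℕ) (δ : ℝ), 4 ≤ D ∧ 0 < δ ∧ ∀ C₃ : ℕ, 1 ≤ C₃ → ∃ c : ℕ, D + 2 ≤ c ∧
      ∀ u d : ℕ, c ^ 5 ^ d ≤ u → ∀ (P : Finset (Fm (GE D (u ^ (w + 2))))) (hP : PClosed P)
        (S : ℕ) (hS : 1 ≤ S) (hM : 1 ≤ u ^ 2) (T : ℕ),
        (S : ℝ) ≤ (Fintype.card (GE D (u ^ (w + 2))) : ℝ) ^ (2 - ε) →
        1 ≤ T → P.card ≤ 1000 * T ^ 8 →
        (T : ℝ) ≤ 2 ^ ((Fintype.card (GE D (u ^ (w + 2))) : ℝ) ^ (δ / 5 ^ d)) →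
        ∃ (k s y : ℕ) (Q η : ℝ), Odd y ∧ y ^ 5 ^ (d + 1) ≤ u ^ 2 ∧ 1 ≤ k ∧ C₃ * k ^ e₁ ≤ s ∧
          1000 * T ^ 8 < 2 ^ s ∧ T < 2 ^ s ∧ P.card < 2 ^ s ∧ C₃ * s ^ e₂ ≤ y ∧ 0 ≤ η ∧
          η * (3 * ((u ^ 2 : ℕ) : ℝ) ^ 3 + 2) ^ (2 * k) ≤
            (1 / ((y ^ 5 ^ (d + 1) : ℕ) : ℝ)) ^ (C₂ * (2 * k)) ∧
          ∃ q, Fam (gridNet 3 (u ^ 2) hM) gcharge
            (relOf (smallOf P S) (closed_smallOf hP hS) (gridAxioms D (u ^ (w + 2)))) k 0 Q η q := by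
  obtain ⟨D, w, δ, hD, hδ, hpar⟩ := params_dgT hchain C₂ e₁ e₂ he₁ he₂ ε h0 h1
  refine ⟨D, w, δ / 20, hD, by positivity, fun C₃ hC₃ => ?_⟩
  obtain ⟨c, hc, hmain⟩ := hpar C₃ hC₃
  obtain ⟨a, ha⟩ : ∃ a : ℕ, (10 : ℝ) ^ (20 / δ) ≤ a := exists_nat_ge _
  refine ⟨c ^ 5 + a, hc.trans ((Nat.le_self_pow (by norm_num) c).trans (Nat.le_add_right _ _)),
    fun u d hd P hP S hS hM T hSn hT hPT hcon => ?_⟩
  have hcd : c ^ 5 ^ (d + 1) ≤ u := by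
    calc c ^ 5 ^ (d + 1) = (c ^ 5) ^ 5 ^ d := by rw [← pow_mul, pow_succ, mul_comm]
      _ ≤ (c ^ 5 + a) ^ 5 ^ d := Nat.pow_le_pow_left (Nat.le_add_right _ _) _
      _ ≤ u := hd
  have hcu : c ≤ u := (Nat.le_self_pow (by positivity) _).trans hcd
  obtain ⟨hun, hnup⟩ := nvar_dg (w := w) hD (by omega : D + 2 ≤ u)
  set n := Fintype.card (GE D (u ^ (w + 2))) with hn
  have hau : a ^ 5 ^ d ≤ n :=
    ((Nat.pow_le_pow_left (Nat.le_add_left _ _) _).trans hd).trans hun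
  -- `z = n ^ (δ / 20 / 5 ^ d)` is at least `10`
  obtain ⟨z, hz⟩ : ∃ z : ℝ, z = (n : ℝ) ^ (δ / 20 / 5 ^ d) := ⟨_, rfl⟩
  have h5 : (0 : ℝ) < 5 ^ d := by positivity
  have hz10 : 10 ≤ z := by
    have e1 : ((a : ℝ) ^ (5 ^ d : ℕ)) ≤ (n : ℝ) := by exact_mod_cast hau
    have ha0 : (0 : ℝ) ≤ a := by positivity
    calc (10 : ℝ) = ((((10 : ℝ) ^ (20 / δ)) ^ (5 ^ d : ℕ)) ^ (δ / 20 / 5 ^ d)) := by
          have e2 : (0 : ℝ) ≤ (10 : ℝ) ^ (20 / δ) := by positivity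
          rw [← Real.rpow_natCast ((10 : ℝ) ^ (20 / δ)), ← Real.rpow_mul e2,
            ← Real.rpow_mul (by norm_num)]
          have e3 : 20 / δ * (((5 ^ d : ℕ) : ℝ) * (δ / 20 / 5 ^ d)) = 1 := by
            push_cast
            field_simp
          rw [e3, Real.rpow_one]
      _ ≤ ((a : ℝ) ^ (5 ^ d : ℕ)) ^ (δ / 20 / 5 ^ d) := by
          refine Real.rpow_le_rpow (by positivity) ?_ (by positivity)
          exact pow_le_pow_left₀ (by positivity) ha _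
      _ ≤ z := by
          rw [hz]
          exact Real.rpow_le_rpow (by positivity) e1 (by positivity)
  have hz4 : (n : ℝ) ^ (δ / 5 ^ (d + 1)) = z ^ 4 := by
    rw [hz, ← Real.rpow_natCast ((n : ℝ) ^ (δ / 20 / 5 ^ d)) 4, ← Real.rpow_mul (by positivity)]
    congr 1
    rw [pow_succ]
    push_cast
    field_simp
    norm_num
  have hcon' : ((1000 * T ^ 8 : ℕ) : ℝ) ≤ 2 ^ ((n : ℝ) ^ (δ / 5 ^ (d + 1))) := by
    rw [hz4]
    rw [← hz] at hcon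
    have hT0 : (0 : ℝ) ≤ (T : ℝ) := by positivity
    have e2 : (T : ℝ) ^ 8 ≤ 2 ^ (z * 8) := by
      rw [Real.rpow_mul (by norm_num)]
      have := pow_le_pow_left₀ hT0 hcon 8
      refine this.trans (le_of_eq ?_)
      rw [← Real.rpow_natCast]
      norm_num
    have e3 : (1000 : ℝ) ≤ 2 ^ (10 : ℝ) := by
      norm_num
    push_cast
    calc (1000 : ℝ) * (T : ℝ) ^ 8 ≤ 2 ^ (10 : ℝ) * 2 ^ (z * 8) := by gcongr
      _ = 2 ^ (10 + z * 8) := by rw [← Real.rpow_add (by norm_num)]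
      _ ≤ 2 ^ (z ^ 4) := by
          refine Real.rpow_le_rpow_of_exponent_le (by norm_num) ?_
          have e4 : 1000 ≤ z ^ 3 := by
            calc (1000 : ℝ) = 10 ^ 3 := by norm_num
              _ ≤ z ^ 3 := pow_le_pow_left₀ (by norm_num) hz10 3
          have e5 : z ^ 4 = z * z ^ 3 := by ring
          rw [e5]
          nlinarith
  obtain ⟨k, s, y, Q, η, hodd, hy, hk, hks, hTs, hsy, hη, herr, q, hq⟩ :=
    hmain u (d + 1) hcd P hP S hS hM (1000 * T ^ 8) hSn hPT hcon'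
  refine ⟨k, s, y, Q, η, hodd, hy, hk, hks, hTs, lt_of_le_of_lt ?_ hTs, lt_of_le_of_lt hPT hTs,
    hsy, hη, herr, q, hq⟩
  calc T ≤ T ^ 8 := Nat.le_self_pow (by norm_num) T
    _ ≤ 1000 * T ^ 8 := Nat.le_mul_of_pos_left _ (by norm_num)

end AcFrege
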