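import Pool.Agent.Work.MP_c07f0d_lc.SOS.CoreSos
import Pool.Agent.Work.MP_c07f0d_lc.SOS.Mons
import Pool.Agent.Work.MP_c07f0d_lc.SOS.ParSos
import Pool.Agent.Work.MP_c07f0d_lc.DG.FinalDG
import Pool.Agent.Work.MP_c07f0d_lc.DG.Link
import Pool.Agent.Work.MP_c07f0d_lc.DG.Base
import Pool.Agent.Work.MP_c07f0d_lc.DG.Chain

/-!
# The main theorem on derivations with algebraic inferences
-/

set_option linter.unusedSectionVars false

namespace AcFrege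

open FregeEF LineSize GridLine SosFrege

/-- The number of the formulas which are added. -/
theorem card_sos {α : Type} [DecidableEq α] {Φ : Finset (Fm α)} {M₀ : Finset (Finset (Fm α))}
    {T n : ℕ} (hT : 1 ≤ T) (hΦ : Φ.card ≤ T) (hM₀ : M₀.card ≤ Φ.card * T) (hn : 2 ^ n ≤ 2 * T) :
    (clF n Φ (mset2 Φ M₀)).card ≤ 1000 * T ^ 8 := by
  have hTT : T ≤ T ^ 2 := Nat.le_self_pow (by norm_num) T
  have h1T : 1 ≤ T ^ 2 := Nat.one_le_pow _ _ hT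
  have h1 : (mset Φ M₀).card ≤ 4 * T ^ 2 := by
    refine card_mset_le.trans ?_
    have e1 : M₀.card ≤ T ^ 2 := by
      rw [sq]
      exact hM₀.trans (Nat.mul_le_mul_right _ hΦ)
    have e2 : Φ.card * Φ.card ≤ T ^ 2 := by
      rw [sq]
      exact Nat.mul_le_mul hΦ hΦ
    omega
  have h2 : (mset2 Φ M₀).card ≤ 16 * T ^ 4 := by
    refine card_mset2_le.trans ?_
    calc (mset Φ M₀).card * (mset Φ M₀).card ≤ (4 * T ^ 2) * (4 * T ^ 2) := Nat.mul_le_mul h1 h1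
      _ = 16 * T ^ 4 := by ring
  have h3 : (mset2 Φ M₀).card * 2 ^ (n + 1) ≤ 64 * T ^ 5 := by
    calc (mset2 Φ M₀).card * 2 ^ (n + 1) ≤ (16 * T ^ 4) * (4 * T) := by
          refine Nat.mul_le_mul h2 ?_
          rw [pow_succ]
          omega
      _ = 64 * T ^ 5 := by ring
  have h5 : T ≤ T ^ 8 := Nat.le_self_pow (by norm_num) T
  have h6 : T ^ 5 ≤ T ^ 8 := Nat.pow_le_pow_right hT (by norm_num)
  refine card_clF_le.trans ?_
  omega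

/-- **The main theorem.** -/
theorem main_sos (ε : ℝ) (h0 : 0 < ε) (h1 : ε < 1) :
    ∃ (D v : ℕ) (δ : ℝ), 0 < δ ∧ ∀ F : FregeSystem, ∃ c : ℕ, ∀ u : ℕ, c ≤ u →
      (∀ φ ∈ gridAxioms D (u ^ v), φ.size ≤ c) ∧
      lsize (gridAxioms D (u ^ v)) ≤ c * Fintype.card (GE D (u ^ v)) ∧
      (∃ L, IsDeriv F.rules (gridAxioms D (u ^ v)) L ∧ Fm.bot ∈ L ∧
        L.length ≤ c * Fintype.card (GE D (u ^ v)) ^ 3 ∧
        ∀ φ ∈ L, φ.size ≤ c * Fintype.card (GE D (u ^ v)) ^ 2) ∧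
      (∀ d : ℕ, c ^ 5 ^ d ≤ u → ∀ (T : ℕ) (Φ : Finset (Fm (GE D (u ^ v)))), PClosed Φ →
        Φ.card ≤ T →
        (∀ φ ∈ Φ, depth ⌊(Fintype.card (GE D (u ^ v)) : ℝ) ^ (2 - ε)⌋₊ φ ≤ d) →
        ∀ L : List (Fm (GE D (u ^ v))), (∀ φ ∈ L, φ ∈ Φ) →
        IsAlgDeriv F.rules (gridAxioms D (u ^ v)) Φ T L → Fm.bot ∈ L →
        (2 : ℝ) ^ ((Fintype.card (GE D (u ^ v)) : ℝ) ^ (δ / 5 ^ d)) < T) := by
  obtain ⟨C₂, hbase⟩ := baseP 256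
  obtain ⟨D, w, δ, hD, hδ, hpar⟩ := params_sos chain C₂ 9 6 (by norm_num) (by norm_num) ε h0 h1
  refine ⟨D, w + 2, δ, hδ, fun F => ?_⟩
  obtain ⟨C₃, hC₃, hcore⟩ := core_sos F linkP hbase
  obtain ⟨c₁, hc₁⟩ := upperG F D (by omega)
  obtain ⟨c₂, hc₂, hpar⟩ := hpar C₃ hC₃
  refine ⟨64 * D ^ 2 + c₁ + c₂, fun u hu => ?_⟩
  have hu2 : 2 ≤ u := by omega
  have hM2 : 2 ≤ u ^ (w + 2) := by
    calc 2 ≤ u := hu2
      _ ≤ u ^ (w + 2) := Nat.le_self_pow (by omega) _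
  obtain ⟨hun, hnup⟩ := nvar_dg (w := w) hD (by omega : D + 2 ≤ u)
  set n := Fintype.card (GE D (u ^ (w + 2))) with hn
  have hn1 : 1 ≤ n := by omega
  have hnr : (1 : ℝ) ≤ (n : ℝ) := by exact_mod_cast hn1
  set S := ⌊(n : ℝ) ^ (2 - ε)⌋₊ with hS
  have hnS : n ≤ S := by
    refine Nat.le_floor ?_
    calc (n : ℝ) = (n : ℝ) ^ (1 : ℝ) := (Real.rpow_one _).symm
      _ ≤ (n : ℝ) ^ (2 - ε) := Real.rpow_le_rpow_of_exponent_le hnr (by linarith)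
  have hsizeax : ∀ φ ∈ gridAxioms D (u ^ (w + 2)), φ.size ≤ 64 * D ^ 2 := by
    intro φ hφ
    obtain ⟨v, _, rfl⟩ := List.mem_map.mp hφ
    exact size_gridAx (by omega) v
  refine ⟨?_, ?_, ?_, ?_⟩
  · intro φ hφ
    exact (hsizeax φ hφ).trans (by omega)
  · refine (lsize_gridAxioms (by omega) hM2).trans ?_
    exact Nat.mul_le_mul_right _ (by omega)
  · obtain ⟨L, k1, k2, k3, k4⟩ := hc₁ (u ^ (w + 2)) hM2
    exact ⟨L, k1, k2, k3.trans (Nat.mul_le_mul_right _ (by omega)),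
      fun φ hφ => (k4 φ hφ).trans (Nat.mul_le_mul_right _ (by omega))⟩
  intro d hd T Φ hΦ hΦT hdepth L hLΦ hL hbot
  by_contra hcon
  push Not at hcon
  have hS1 : 1 ≤ S := by omega
  have hM1 : 1 ≤ u ^ 2 := Nat.one_le_pow _ _ (by omega)
  have hT1 : 1 ≤ T := by
    refine le_trans ?_ hΦT
    exact Finset.card_pos.2 ⟨_, hLΦ _ hbot⟩
  obtain ⟨L', M₀, hLL', hL'Φ, hM₀c, hM₀, hmon⟩ := exists_mons hL hLΦ
  -- the height of the conjunctions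
  obtain ⟨h, hh⟩ : ∃ h : ℕ, h = Nat.clog 2 T := ⟨_, rfl⟩
  have hTh : T ≤ 2 ^ h := by
    rw [hh]
    exact Nat.le_pow_clog (by norm_num) _
  have hh2 : 2 ^ h ≤ 2 * T := by
    rw [hh]
    exact two_pow_clog_le hT1
  have hcard := card_sos hT1 hΦT hM₀c hh2
  have hPcl : PClosed (clF h Φ (mset2 Φ M₀)) := pclosed_clF hΦ (mset2_subset hM₀)
  obtain ⟨k, s, y, Q, η, hodd, hyM, hk1, hks, -, hTs, hPs, hsy, hη, hηN, hq⟩ := hpar u d
    ((Nat.pow_le_pow_left (by omega) _).trans hd) (clF h Φ (mset2 Φ M₀)) hPcl S hS1 hM1 T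
    (Nat.floor_le (by positivity)) hT1 hcard hcon
  have hhs : h ≤ s := by
    rw [hh]
    exact Nat.clog_le_of_le_pow hTs.le
  exact hcore (u ^ 2) k d y s S h hM1 Q η _ L' Φ M₀ (closed_smallOf hPcl hS1) hodd hyM hk1 hS1
    hks hPs hsy hη hηN hq (fun φ hφ => (hsizeax φ hφ).trans (by omega)) hΦ hM₀
    (hΦT.trans hTh) hhs hdepth hmon hL'Φ (hLL' _ hbot)

end AcFrege
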