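import Pool.Agent.Work.MP_c07f0d_lc.SOS.SosDefs
import Mathlib.RingTheory.MvPolynomial.Basic
import Mathlib.Tactic.Linarith

/-!
# Functionals on polynomials given by their values on the supports of the monomials
-/

namespace AcFrege

open FregeEF SosFrege MvPolynomial

variable {α : Type} [DecidableEq α] {K : Type} [CommRing K]

/-- The linear functional with the value `Λ S` on the monomials with support `S`. -/
noncomputable def lam (Λ : Finset (Fm α) → K) : MvPolynomial (Fm α) K →ₗ[K] K :=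
  (MvPolynomial.basisMonomials (Fm α) K).constr K fun m => Λ m.support

/-- The functional satisfies all truth relations, for the monomials in `M`. -/
structure LamOk (Φ : Finset (Fm α)) (Δ : List (Fm α)) (M : Finset (Finset (Fm α)))
    (Λ : Finset (Fm α) → K) : Prop where
  bot : Fm.bot ∈ Φ → ∀ S ∈ M, Λ (insert .bot S) = 0
  neg : ∀ a, Fm.neg a ∈ Φ → ∀ S ∈ M, Λ (insert (.neg a) S) = Λ S - Λ (insert a S)
  and : ∀ a b, Fm.and a b ∈ Φ → ∀ S ∈ M, Λ (insert (.and a b) S) = Λ (insert a (insert b S))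
  or : ∀ a b, Fm.or a b ∈ Φ → ∀ S ∈ M, Λ (insert (.or a b) S) =
    Λ (insert a S) + Λ (insert b S) - Λ (insert a (insert b S))
  imp : ∀ a b, Fm.imp a b ∈ Φ → ∀ S ∈ M, Λ (insert (.imp a b) S) =
    Λ S - Λ (insert a S) + Λ (insert a (insert b S))
  hyp : ∀ ψ ∈ Δ, ∀ S ∈ M, Λ (insert ψ S) = Λ S

/-- The functional is positive on squares. -/
def LamPos (M : Finset (Finset (Fm α))) (Λ : Finset (Fm α) → ℝ) : Prop :=
  ∀ c : Finset (Fm α) → ℝ, 0 ≤ ∑ S ∈ M, ∑ S' ∈ M, c S * c S' * Λ (S ∪ S')

theorem lam_monomial (Λ : Finset (Fm α) → K) (m : Fm α →₀ ℕ) (a : K) :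
    lam Λ (monomial m a) = a * Λ m.support := by
  unfold lam
  have h : monomial m a = a • (basisMonomials (Fm α) K m) := by
    rw [coe_basisMonomials]
    simp [smul_monomial]
  rw [h, map_smul, Module.Basis.constr_basis, smul_eq_mul]

theorem support_add_single (m : Fm α →₀ ℕ) (φ : Fm α) {k : ℕ} (hk : k ≠ 0) :
    (m + Finsupp.single φ k).support = insert φ m.support := by
  ext x
  simp only [Finsupp.mem_support_iff, Finsupp.add_apply, Finset.mem_insert]
  by_cases h : x = φ
  · subst h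
    simp [hk]
  · have : Finsupp.single φ k x = 0 := Finsupp.single_eq_of_ne h
    simp [this, h]

theorem lam_mul_rel {Φ : Finset (Fm α)} {Δ : List (Fm α)} {M : Finset (Finset (Fm α))}
    {Λ : Finset (Fm α) → K} (hΛ : LamOk Φ Δ M Λ) {h p : MvPolynomial (Fm α) K}
    (hh : ∀ m ∈ h.support, m.support ∈ M) (hp : TruthRel K Φ Δ p) : lam Λ (h * p) = 0 := by
  have key : ∀ m : Fm α →₀ ℕ, m.support ∈ M → ∀ c : K, lam Λ (monomial m c * p) = 0 := by
    intro m hm c
    have hX : ∀ φ : Fm α, monomial m c * X φ = monomial (m + Finsupp.single φ 1) c := by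
      intro φ
      rw [X, monomial_mul, mul_one]
    have e1 : ∀ φ : Fm α, lam Λ (monomial m c * X φ) = c * Λ (insert φ m.support) := by
      intro φ
      rw [hX, lam_monomial, support_add_single _ _ one_ne_zero]
    have e2 : ∀ a b : Fm α, lam Λ (monomial m c * (X a * X b)) =
        c * Λ (insert a (insert b m.support)) := by
      intro a b
      rw [mul_comm (X a), ← mul_assoc, hX, X, monomial_mul, mul_one, lam_monomial,
        support_add_single _ _ one_ne_zero, support_add_single _ _ one_ne_zero]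
    have e0 : lam Λ (monomial m c) = c * Λ m.support := lam_monomial _ _ _
    cases hp with
    | bool φ hφ =>
      rw [mul_sub, map_sub, sq, e2, e1, Finset.insert_idem, sub_self]
    | bot hb => rw [e1, hΛ.bot hb _ hm, mul_zero]
    | neg a ha =>
      rw [mul_sub, mul_sub, mul_one, map_sub, map_sub, e1, e0, e1, hΛ.neg a ha _ hm]
      ring
    | and a b hab =>
      rw [mul_sub, map_sub, e1, e2, hΛ.and a b hab _ hm, sub_self]
    | or a b hab =>
      rw [mul_sub, mul_sub, mul_add, map_sub, map_sub, map_add, e1, e1, e1, e2,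
        hΛ.or a b hab _ hm]
      ring
    | imp a b hab =>
      rw [mul_sub, mul_add, mul_sub, mul_one, map_sub, map_add, map_sub, e1, e1, e0, e2,
        hΛ.imp a b hab _ hm]
      ring
    | hyp ψ hψ =>
      rw [mul_sub, mul_one, map_sub, e1, e0, hΛ.hyp ψ hψ _ hm, sub_self]
  conv_lhs => rw [h.as_sum, Finset.sum_mul, map_sum]
  exact Finset.sum_eq_zero fun m hm => key m (hh m hm) _

theorem lam_one (Λ : Finset (Fm α) → K) : lam Λ 1 = Λ ∅ := by
  have h : (1 : MvPolynomial (Fm α) K) = monomial 0 1 := by simp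
  rw [h, lam_monomial, one_mul, Finsupp.support_zero]

theorem lam_X (Λ : Finset (Fm α) → K) (φ : Fm α) : lam Λ (X φ) = Λ {φ} := by
  rw [X, lam_monomial, one_mul, Finsupp.support_single_ne_zero _ one_ne_zero]

theorem lam_sum_rel {Φ : Finset (Fm α)} {Δ : List (Fm α)} {M : Finset (Finset (Fm α))}
    {Λ : Finset (Fm α) → K} (hΛ : LamOk Φ Δ M Λ)
    (H : List (MvPolynomial (Fm α) K × MvPolynomial (Fm α) K))
    (hH : ∀ q ∈ H, (∀ m ∈ q.1.support, m.support ∈ M) ∧ TruthRel K Φ Δ q.2) :
    lam Λ (H.map fun q => q.1 * q.2).sum = 0 := by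
  induction H with
  | nil => simp
  | cons q H ih =>
    rw [List.map_cons, List.sum_cons, map_add, ih fun q' hq' => hH q' (List.mem_cons_of_mem _ hq'),
      add_zero]
    exact lam_mul_rel hΛ (hH q List.mem_cons_self).1 (hH q List.mem_cons_self).2

theorem alg_sound {Φ : Finset (Fm α)} {Δ : List (Fm α)} {M : Finset (Finset (Fm α))}
    {Λ : Finset (Fm α) → K} (hΛ : LamOk Φ Δ M Λ) {φ : Fm α}
    (H : List (MvPolynomial (Fm α) K × MvPolynomial (Fm α) K))
    (hH : ∀ q ∈ H, (∀ m ∈ q.1.support, m.support ∈ M) ∧ TruthRel K Φ Δ q.2)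
    (h : X φ - 1 = (H.map fun q => q.1 * q.2).sum) : Λ {φ} = Λ ∅ := by
  have h1 := congrArg (lam Λ) h
  rw [lam_sum_rel hΛ H hH, map_sub, lam_X, lam_one] at h1
  exact sub_eq_zero.1 h1

theorem lam_sq_nonneg {M : Finset (Finset (Fm α))} {Λ : Finset (Fm α) → ℝ} (hpos : LamPos M Λ)
    {g : MvPolynomial (Fm α) ℝ} (hg : ∀ m ∈ g.support, m.support ∈ M) : 0 ≤ lam Λ (g ^ 2) := by
  classical
  have h1 : lam Λ (g ^ 2) = ∑ m ∈ g.support, ∑ m' ∈ g.support,
      g.coeff m * g.coeff m' * Λ (m.support ∪ m'.support) := by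
    rw [sq]
    conv_lhs => rw [g.as_sum, Finset.sum_mul_sum, map_sum]
    refine Finset.sum_congr rfl fun m _ => ?_
    rw [map_sum]
    refine Finset.sum_congr rfl fun m' _ => ?_
    rw [monomial_mul, lam_monomial]
    congr 2
    ext x
    simp only [Finsupp.mem_support_iff, Finsupp.add_apply, Finset.mem_union]
    omega
  have h2 := hpos fun S => ∑ m ∈ g.support.filter (fun m => m.support = S), g.coeff m
  have h3 : ∀ (w : Finset (Fm α) → ℝ), ∑ S ∈ M,
      (∑ m ∈ g.support.filter (fun m => m.support = S), g.coeff m) * w S =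
      ∑ m ∈ g.support, g.coeff m * w m.support := by
    intro w
    have h4 : ∀ S ∈ M, (∑ m ∈ g.support.filter (fun m => m.support = S), g.coeff m) * w S =
        ∑ m ∈ g.support.filter (fun m => m.support = S), g.coeff m * w m.support := by
      intro S _
      rw [Finset.sum_mul]
      refine Finset.sum_congr rfl fun m hm => ?_
      rw [(Finset.mem_filter.1 hm).2]
    rw [Finset.sum_congr rfl h4]
    exact Finset.sum_fiberwise_of_maps_to (fun m hm => hg m hm) _
  rw [h1]
  refine le_of_le_of_eq h2 ?_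
  have h5 : ∀ S ∈ M, ∑ S' ∈ M, (∑ m ∈ g.support.filter (fun m => m.support = S), g.coeff m) *
      (∑ m ∈ g.support.filter (fun m => m.support = S'), g.coeff m) * Λ (S ∪ S') =
      (∑ m ∈ g.support.filter (fun m => m.support = S), g.coeff m) *
        ∑ m' ∈ g.support, g.coeff m' * Λ (S ∪ m'.support) := by
    intro S _
    rw [← h3 fun S' => Λ (S ∪ S'), Finset.mul_sum]
    refine Finset.sum_congr rfl fun S' _ => ?_
    ring
  rw [Finset.sum_congr rfl h5, h3 fun S => ∑ m' ∈ g.support, g.coeff m' * Λ (S ∪ m'.support)]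
  refine Finset.sum_congr rfl fun m _ => ?_
  rw [Finset.mul_sum]
  refine Finset.sum_congr rfl fun m' _ => ?_
  ring

theorem sos_sound {Φ : Finset (Fm α)} {Δ : List (Fm α)} {M : Finset (Finset (Fm α))}
    {Λ : Finset (Fm α) → ℝ} (hΛ : LamOk Φ Δ M Λ) (hpos : LamPos M Λ) {φ : Fm α}
    (G : List (MvPolynomial (Fm α) ℝ)) (H : List (MvPolynomial (Fm α) ℝ × MvPolynomial (Fm α) ℝ))
    (hG : ∀ g ∈ G, ∀ m ∈ g.support, m.support ∈ M)
    (hH : ∀ q ∈ H, (∀ m ∈ q.1.support, m.support ∈ M) ∧ TruthRel ℝ Φ Δ q.2)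
    (h : X φ - 1 = (G.map fun g => g ^ 2).sum + (H.map fun q => q.1 * q.2).sum) :
    Λ ∅ ≤ Λ {φ} := by
  have h1 := congrArg (lam Λ) h
  rw [map_add, lam_sum_rel hΛ H hH, map_sub, lam_X, lam_one, add_zero] at h1
  have h2 : 0 ≤ lam Λ (G.map fun g => g ^ 2).sum := by
    clear h h1
    induction G with
    | nil => simp
    | cons g G ih =>
      rw [List.map_cons, List.sum_cons, map_add]
      exact add_nonneg (lam_sq_nonneg hpos (hG g List.mem_cons_self))
        (ih fun g' hg' => hG g' (List.mem_cons_of_mem _ hg'))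
  linarith

end AcFrege
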