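import Pool.Agent.Work.MP_c07f0d_lc.SOS.SosDefs

/-!
# Derivations with a given set of supports of monomials
-/

namespace AcFrege

open FregeEF SosFrege MvPolynomial

variable {α : Type}

/-- Derivations in which the supports of all monomials are in `M`. -/
inductive IsMonDeriv (R : List Rule) (Γ : List (Fm α)) (Φ : Finset (Fm α))
    (M : Finset (Finset (Fm α))) : List (Fm α) → Prop
  | nil : IsMonDeriv R Γ Φ M []
  | hyp {L : List (Fm α)} {φ : Fm α} : IsMonDeriv R Γ Φ M L → φ ∈ Γ → IsMonDeriv R Γ Φ M (φ :: L)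
  | step {L : List (Fm α)} {φ : Fm α} :
      IsMonDeriv R Γ Φ M L → Infers R L φ → IsMonDeriv R Γ Φ M (φ :: L)
  | sos {L : List (Fm α)} {φ : Fm α} (G : List (MvPolynomial (Fm α) ℝ))
      (H : List (MvPolynomial (Fm α) ℝ × MvPolynomial (Fm α) ℝ)) :
      IsMonDeriv R Γ Φ M L → (∀ g ∈ G, ∀ m ∈ g.support, m.support ∈ M) →
      (∀ q ∈ H, (∀ m ∈ q.1.support, m.support ∈ M) ∧ TruthRel ℝ Φ L q.2) →
      X φ - 1 = (G.map fun g => g ^ 2).sum + (H.map fun q => q.1 * q.2).sum →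
      IsMonDeriv R Γ Φ M (φ :: L)
  | alg {L : List (Fm α)} {φ : Fm α} (K : Type) [CommRing K] (hK : ∀ m : ℕ, (2 : K) ^ m ≠ 0)
      (H : List (MvPolynomial (Fm α) K × MvPolynomial (Fm α) K)) :
      IsMonDeriv R Γ Φ M L →
      (∀ q ∈ H, (∀ m ∈ q.1.support, m.support ∈ M) ∧ TruthRel K Φ L q.2) →
      X φ - 1 = (H.map fun q => q.1 * q.2).sum →
      IsMonDeriv R Γ Φ M (φ :: L)

end AcFrege
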