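import Pool.Agent.Work.MP_c07f0d_lc.DG.PX

/-!
# Existence of pseudo-functionals with dyadic values
-/

set_option linter.unusedSectionVars false

namespace AcFrege

open GridLine LineSize

section

variable {V E : Type} [Fintype V] [DecidableEq V] [Fintype E] [DecidableEq E]

/-- The Walsh character as an integer. -/
def ichi {ι : Type} (S : Finset ι) (x : ι → Bool) : ℤ := ∏ i ∈ S, if x i then -1 else 1

theorem chi_eq_ichi {ι : Type} [Fintype ι] [DecidableEq ι] (S : Finset ι) (x : ι → Bool) :
    chi S x = (ichi S x : ℝ) := by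
  unfold chi ichi
  rw [Int.cast_prod]
  refine Finset.prod_congr rfl fun i _ => ?_
  unfold sg
  split_ifs <;> simp

/-- The values of the pseudo-expectation on integer functions. -/
theorem Et_int {src tgt : E → V} {c : V → Bool} (f : (E → Bool) → ℤ) :
    ∃ a : ℤ, 2 ^ Fintype.card E * Et src tgt c (fun x => (f x : ℝ)) = a := by
  refine ⟨∑ U : Finset V, if 3 * U.card < Fintype.card V then
    ichi U c * ∑ x, f x * ichi (bd src tgt U) x else 0, ?_⟩
  unfold Et
  rw [Finset.mul_sum, Int.cast_sum]
  refine Finset.sum_congr rfl fun U _ => ?_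
  split_ifs
  · unfold fc
    rw [chi_eq_ichi]
    simp only [chi_eq_ichi]
    push_cast
    have h := two_pow_ne (ι := E)
    field_simp
  · simp

end

/-- **Existence of pseudo-functionals** with values in the dyadic rationals on integer functions. -/
theorem exists_PF_int {V : Type} [Fintype V] [DecidableEq V] (π : Mt V) (D : ℕ)
    (hodd : Odd (free π).card) (hD : 170723 * (D + 1) ^ 3 ≤ (free π).card) :
    ∃ L : (Mt V → ℝ) →ₗ[ℝ] ℝ, PF π D L ∧
      ∃ k : ℕ, ∀ F : Mt V → ℤ, ∃ a : ℤ, 2 ^ k * L (fun x => (F x : ℝ)) = a := by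
  classical
  set g : ℕ := 28 * (D + 1) + 1 with hg
  have hg1 : 1 ≤ g := by omega
  have hgle : g ≤ 29 * (D + 1) := by omega
  have hcardV : Fintype.card (GV 3 g) = g ^ 3 := by
    rw [Fintype.card_fun, Fintype.card_fin, Fintype.card_fin]
  set G := gridNet 3 g hg1 with hGdef
  set c : GV 3 g → Bool := fun _ => true with hc
  have hOk : G.Ok (6 * D + 6) := by
    refine ⟨?_, ?_⟩
    · show 128 * g * (6 * D + 6) ≤ _
      rw [hcardV]
      have h1 : 128 * (6 * D + 6) ≤ g * g := by
        rw [hg]
        nlinarith
      calc 128 * g * (6 * D + 6) = g * (128 * (6 * D + 6)) := by ring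
        _ ≤ g * (g * g) := Nat.mul_le_mul_left _ h1
        _ = g ^ 3 := by ring
    · rw [hcardV]
      positivity
  -- the honest map
  have hcP : Fintype.card (Fin 3 × Bool) = 6 := rfl
  have h7 : Fintype.card (GV 3 g) * (Fintype.card (Fin 3 × Bool) + 1) = 7 * g ^ 3 := by
    rw [hcardV, hcP]
    ring
  have hle : 7 * g ^ 3 ≤ (free π).card := by
    refine le_trans ?_ hD
    calc 7 * g ^ 3 ≤ 7 * (29 * (D + 1)) ^ 3 := Nat.mul_le_mul_left _ (Nat.pow_le_pow_left hgle 3)
      _ = 170723 * (D + 1) ^ 3 := by ring
  have hgodd : Odd (7 * g ^ 3) := by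
    refine Nat.odd_mul.2 ⟨by decide, Odd.pow ?_⟩
    exact ⟨14 * (D + 1), by rw [hg]; ring⟩
  obtain ⟨X, cl, hX1, hX2, hX3⟩ := exists_X (gports g) (by rw [hcP]; decide) π
    (by rw [h7]; exact hle) (by rw [h7]; exact Nat.Odd.sub_odd hodd hgodd)
  -- degrees
  have hzz : ∀ μ : Mt V, LowDeg (6 * cost π μ) (fun x => zz μ (X x)) := by
    intro μ
    set A : Finset (GE 3 g) := ((free π).filter fun u => μ u ≠ u).biUnion fun u =>
      (cl u).elim ∅ fun v => (gports g).star v with hA
    have hAc : A.card ≤ 6 * cost π μ := by
      refine (Finset.card_biUnion_le).trans ?_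
      have h1 : ∀ u ∈ (free π).filter (fun u => μ u ≠ u),
          ((cl u).elim ∅ fun v => (gports g).star v).card ≤ 6 := by
        intro u _
        cases cl u with
        | none => simp
        | some v => exact card_star_le g v
      refine (Finset.sum_le_sum h1).trans ?_
      rw [Finset.sum_const, smul_eq_mul, mul_comm]
      exact le_rfl
    refine (lowDeg_of_dep A _ fun x x' h => ?_).mono hAc
    have key : ∀ x x' : GE 3 g → Bool, (∀ i ∈ A, x i = x' i) → μ ≤ X x → μ ≤ X x' := by
      intro x x' h h1 u hu
      by_cases hf : π u = u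
      · rw [← h1 u hu]
        refine (hX2 x x' u fun v hv e he => h e ?_).symm
        rw [hA, Finset.mem_biUnion]
        refine ⟨u, ?_, ?_⟩
        · rw [Finset.mem_filter, mem_free]
          exact ⟨hf, hu⟩
        · rw [hv]
          exact he
      · rw [← h1 u hu, hX1 x u hf, hX1 x' u hf]
    by_cases h1 : μ ≤ X x
    · rw [zz_apply_of_le h1, zz_apply_of_le (key x x' h h1)]
    · rw [zz_apply_of_not h1, zz_apply_of_not fun h2 => h1 (key x' x
        (fun i hi => (h i hi).symm) h2)]
  have hdeg : ∀ (k : ℕ) (F : Mt V → ℝ), F ∈ Deg π k → LowDeg (6 * k) (fun x => F (X x)) := by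
    intro k F hF
    unfold Deg at hF
    induction hF using Submodule.span_induction with
    | mem F hF =>
      obtain ⟨μ, hμ, rfl⟩ := hF
      exact (hzz μ).mono (Nat.mul_le_mul_left _ hμ)
    | zero => exact LowDeg.const _ 0
    | add x y _ _ hx hy => exact hx.add hy
    | smul a x _ hx => exact hx.const_mul a
  have hfr : ∀ u : V, LowDeg 6 (fun x => fr u (X x)) := by
    intro u
    set A : Finset (GE 3 g) := (cl u).elim ∅ fun v => (gports g).star v with hA
    have hAc : A.card ≤ 6 := by
      rw [hA]
      cases cl u with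
      | none => simp
      | some v => exact card_star_le g v
    refine (lowDeg_of_dep A _ fun x x' h => ?_).mono hAc
    have h1 : X x u = X x' u := hX2 x x' u fun v hv e he => h e (by rw [hA, hv]; exact he)
    show (if X x u = u then (1 : ℝ) else 0) = if X x' u = u then (1 : ℝ) else 0
    rw [h1]
  -- the functional
  let L : (Mt V → ℝ) →ₗ[ℝ] ℝ :=
    { toFun := fun F => G.Ex c fun x => F (X x)
      map_add' := fun F H => Et_add _ _
      map_smul' := fun a F => Et_const_mul a _ }
  have hL : ∀ F, L F = G.Ex c fun x => F (X x) := fun F => rfl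
  let P := G.pe c (6 * D + 6) hOk
  have hPE : ∀ f, P.E f = G.Ex c f := fun f => rfl
  refine ⟨L, ⟨?_, ?_, ?_, ?_⟩, Fintype.card (GE 3 g), fun F => Et_int (fun x => F (X x))⟩
  · exact Net.pe_one (c := c) hOk
  · intro F hF
    have h1 := P.psd (fun x => F (X x)) ((hdeg D F hF).mono (by show 6 * D ≤ 6 * D + 6; omega))
    rw [hPE] at h1
    have h2 : (fun x => F (X x) ^ 2) = fun x => (F * F) (X x) := by
      funext x
      rw [Pi.mul_apply, sq]
    rw [h2] at h1
    exact h1
  · intro u F hF
    rw [hL]
    rcases hclu : cl u with _ | v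
    · have h1 : (fun x => (F * fr u) (X x)) = fun _ => (0 : ℝ) := by
        funext x
        rw [Pi.mul_apply]
        have h2 : fr u (X x) = 0 := by
          unfold fr
          rw [if_neg]
          intro hc'
          obtain ⟨v, hv, -⟩ := hX3 x u hc'
          rw [hclu] at hv
          exact absurd hv (by simp)
        rw [h2, mul_zero]
      rw [h1]
      exact Et_zero
    · -- the star relation
      set S : Finset (GE 3 g) := bd gsrc gtgt {v} with hS
      have hSc : S.card ≤ 6 := by
        rw [hS, ← gports_star]
        exact card_star_le g v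
      have hs1 : LowDeg (6 * D + 6) (fun x => (1 + chi S x) / 2) := by
        have h1 : LowDeg 6 (fun x => 1 + chi S x) :=
          (LowDeg.const 6 1).add ((LowDeg.chi S).mono hSc)
        have h2 := h1.const_mul (1 / 2)
        have h3 : (fun x => (1 / 2 : ℝ) * (1 + chi S x)) = fun x => (1 + chi S x) / 2 := by
          funext x
          ring
        rw [h3] at h2
        exact h2.mono (by omega)
      have hs2 : LowDeg (6 * D + 6) (fun x => F (X x) * fr u (X x)) :=
        (hdeg D F hF).mul (hfr u)
      have h1 : (fun x => (F * fr u) (X x)) =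
          fun x => (F (X x) * fr u (X x)) * ((1 + chi S x) / 2) := by
        funext x
        rw [Pi.mul_apply]
        by_cases hx : X x u = u
        · obtain ⟨v', hv', he⟩ := hX3 x u hx
          rw [hclu, Option.some.injEq] at hv'
          subst hv'
          rw [gports_star, ← hS] at he
          rw [chi_eq_one S x he]
          ring
        · have h2 : fr u (X x) = 0 := by
            unfold fr
            rw [if_neg hx]
          rw [h2]
          ring
      have h2 : P.N (fun x => (1 + chi S x) / 2) = 0 := by
        have h3 : P.E (fun x => ((1 + chi S x) / 2) ^ 2) = 0 := by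
          have h4 : (fun x : GE 3 g → Bool => ((1 + chi S x) / 2) ^ 2) =
              fun x => (1 / 2 : ℝ) * (fun _ => (1 : ℝ)) x + (1 / 2 : ℝ) * chi S x := by
            funext x
            have := chi_sq S x
            linear_combination (1 / 4 : ℝ) * this
          rw [h4, P.add', P.smul' (1 / 2) (fun _ => (1 : ℝ)), P.smul' (1 / 2) (fun x => chi S x)]
          have h5 : P.E (fun _ => (1 : ℝ)) = 1 := Net.pe_one (c := c) hOk
          have h6 : P.E (fun x => chi S x) = chi {v} c := by
            have h7 : 3 * ({v} : Finset (GV 3 g)).card < Fintype.card (GV 3 g) := by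
              rw [Finset.card_singleton, hcardV]
              have : 29 ≤ g := by omega
              calc 3 * 1 < 29 ^ 3 := by norm_num
                _ ≤ g ^ 3 := Nat.pow_le_pow_left this 3
            exact Net.Ex_chi_bdG (G := G) c (U := {v}) h7
          rw [h5, h6]
          have h7 : chi ({v} : Finset (GV 3 g)) c = -1 := by
            simp [chi, hc, sg]
          rw [h7]
          norm_num
        show Real.sqrt _ = 0
        rw [h3, Real.sqrt_zero]
      have h3 := PE.cs (P := P) (f := fun x => F (X x) * fr u (X x))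
        (g := fun x => (1 + chi S x) / 2) hs2 hs1
      rw [h2, mul_zero] at h3
      rw [h1]
      exact abs_eq_zero.1 (le_antisymm h3 (abs_nonneg _))
  · intro F hF
    rw [hL, hL]
    congr 1
    funext x
    rw [Pi.mul_apply, zz_apply_of_le (hX1 x), mul_one]

end AcFrege
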