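import Pool.Agent.Work.MP_c07f0d_lc.SOS.Tree
import Pool.Agent.Work.MP_c07f0d_lc.AC.SemOfLev

/-!
# Functions of matchings for the formulas with leaf sets

From leaf sets we get functions of low degree for the formulas.  The relations between the labels
of the formulas hold exactly for all pseudo-functionals.
-/

set_option linter.unusedSectionVars false

namespace AcFrege

open FregeEF

variable {α V : Type} [Fintype V] [DecidableEq V]

/-- The function `R` is killed by all pseudo-functionals of degree `D` at `ρ`, also after the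
multiplication with functions of degree at most `g`. -/
def Kill (ρ : Mt V) (D g : ℕ) (R : Mt V → ℝ) : Prop :=
  ∀ L : (Mt V → ℝ) →ₗ[ℝ] ℝ, PF ρ D L → ∀ G ∈ Deg ρ g, L (G * R) = 0

/-- The label of a state is the value at some extension. -/
theorem Sem.val_of_lab {room : Mt V → ℕ} {ρ : Mt V} {c : ℕ} {In : Fm α → Prop}
    {W : Fm α → Bool → Mt V → Prop} (h : Sem room ρ c In W) {φ : Fm α} (hφ : In φ) {κ : Mt V}
    (hκ : ρ ≤ κ) (hroom : 3 * c ≤ room κ) {t : Bool} (hlab : Lab (W φ) t κ) :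
    ∃ κ', κ ≤ κ' ∧ room κ ≤ room κ' + c ∧ W φ t κ' := by
  obtain ⟨κ', h1, h2, u, hu⟩ := h.dec φ κ hφ hκ hroom
  refine ⟨κ', h1, h2, ?_⟩
  have h3 : u = t := by
    by_contra hne
    have h4 : u = !t := by cases u <;> cases t <;> simp_all
    exact hlab κ' h1 (h4 ▸ hu)
  exact h3 ▸ hu

/-- The pointwise identity at a state where all labels are known. -/
theorem mul_zz_eq_zero {R : Mt V → ℝ} {κ : Mt V} (h : ∀ x, κ ≤ x → R x = 0) :
    R * zz κ = 0 := by
  funext x
  by_cases hx : κ ≤ x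
  · simp [h x hx]
  · simp [zz_apply_of_not hx]

/-- A relation which holds at all states that are reached is killed. -/
theorem kill_of_rch {ρ : Mt V} {Q : Mt V → Prop} {n r D g : ℕ} (h : Rch Q n ρ) {R : Mt V → ℝ}
    (hR : R ∈ Deg ρ r) (hD : g + r + 2 * n ≤ D)
    (hk : ∀ κ, ρ ≤ κ → cost ρ κ ≤ 2 * n → Q κ → ∀ x, κ ≤ x → R x = 0) : Kill ρ D g R := by
  intro L hL G hG
  have hH : G * R ∈ Deg ρ (g + r) := Deg.mul hG hR
  rw [← hL.base _ (Deg.mono (by omega) hH)]
  refine h.kill hL hH le_rfl (by rw [cost_self']; omega) fun κ hκ hc hQ => ?_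
  rw [cost_self', zero_add] at hc
  rw [mul_assoc, mul_zz_eq_zero (hk κ hκ hc hQ), mul_zero, map_zero]

theorem bR_and (u v : Bool) : bR (u && v) = bR u * bR v := by
  cases u <;> cases v <;> simp [bR]

theorem bR_or (u v : Bool) : bR (u || v) = bR u + bR v - bR u * bR v := by
  cases u <;> cases v <;> simp [bR]

theorem bR_not (u : Bool) : bR (!u) = 1 - bR u := by
  cases u <;> simp [bR]

/-- A decided function is `false` above a state with the value `false`. -/
theorem Tr.eq_false {W : Bool → Mt V → Prop} (hW : ∀ a b, a ≤ b → W false a → W false b)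
    {n : ℕ} {ν : Mt V} {f : Mt V → Bool} (h : Tr (Lab W) n ν f) {b : Mt V} (hb : W false b) :
    ∀ x, ν ≤ x → b ≤ x → f x = false := by
  induction h with
  | leaf n ν t h =>
    intro x hx hbx
    cases t with
    | false => rfl
    | true => exact (h x hx (hW b x hbx hb)).elim
  | node n ν v f _ ih =>
    intro x hx hbx
    by_cases hv : x v = v
    · show (if x v = v then false else f (x v) x) = false
      rw [if_pos hv]
    · show (if x v = v then false else f (x v) x) = false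
      rw [if_neg hv]
      have h1 : edge v (x v) ≤ x := (edge_le_iff (Ne.symm hv) x).2 rfl
      exact ih (x v) hv (Compat.of_le hx h1) x (Mt.join_le _ hx h1) hbx

/-- The functions `y φ` of the formulas: `y φ` is the indicator function of `ρ`, times the truth
value `f φ`, which is decided by `n` queries. -/
structure YData (In : Fm α → Prop) (ρ : Mt V) (n : ℕ) (W : Fm α → Bool → Mt V → Prop)
    (f : Fm α → Mt V → Bool) (y : Fm α → Mt V → ℝ) : Prop where
  tree : ∀ φ, In φ → Tr (Lab (W φ)) n ρ (f φ)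
  eq : ∀ φ, In φ → y φ = zz ρ * fun x => bR (f φ x)
  out : ∀ φ, ¬ In φ → y φ = 0

theorem exists_ydata {P : Finset (Fm α)} {s j c : ℕ} {ρ : Mt V}
    {A : Fm α → Bool → Set (Mt V)} (h : Lev P s j c ρ A) :
    ∃ f y, YData (fun φ => φ ∈ P ∧ depth s φ ≤ j) ρ (c * c) (Val A) f y := by
  classical
  have htree : ∀ φ, ∃ f : Mt V → Bool, (φ ∈ P ∧ depth s φ ≤ j) →
      Tr (Lab (Val A φ)) (c * c) ρ f := by
    intro φ
    by_cases hφ : φ ∈ P ∧ depth s φ ≤ j
    · obtain ⟨f, hf⟩ := exists_tr (A := A φ) (ρ := ρ) (c := c)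
        (fun μ hμ hc => h.cost φ hφ.1 hφ.2 true μ hμ hc)
        (fun μ hμ μ' hμ' => h.inc φ hφ.1 hφ.2 μ hμ μ' hμ') c ρ le_rfl
        (fun μ hμ hc => h.cost φ hφ.1 hφ.2 false μ hμ hc)
      exact ⟨f, fun _ => hf⟩
    · exact ⟨fun _ => false, fun h2 => absurd h2 hφ⟩
  choose f hf using htree
  exact ⟨f, fun φ => if φ ∈ P ∧ depth s φ ≤ j then zz ρ * (fun x => bR (f φ x)) else 0,
    hf, fun φ hφ => if_pos hφ, fun φ hφ => if_neg hφ⟩

namespace YData

variable {In : Fm α → Prop} {ρ : Mt V} {n : ℕ} {W : Fm α → Bool → Mt V → Prop}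
  {f : Fm α → Mt V → Bool} {y : Fm α → Mt V → ℝ}

theorem mem (h : YData In ρ n W f y) (φ : Fm α) : y φ ∈ Deg ρ (2 * n) := by
  by_cases hφ : In φ
  · rw [h.eq φ hφ]
    exact (h.tree φ hφ).mem
  · rw [h.out φ hφ]
    exact Submodule.zero_mem _

theorem apply (h : YData In ρ n W f y) {φ : Fm α} (hφ : In φ) {x : Mt V} (hx : ρ ≤ x) :
    y φ x = bR (f φ x) := by
  rw [h.eq φ hφ, Pi.mul_apply, zz_apply_of_le hx, one_mul]

/-- The functions have the values `0` and `1`. -/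
theorem int (h : YData In ρ n W f y) (φ : Fm α) : ∃ g : Mt V → ℤ, y φ = fun x => (g x : ℝ) := by
  classical
  by_cases hφ : In φ
  · refine ⟨fun x => if ρ ≤ x ∧ f φ x = true then 1 else 0, ?_⟩
    funext x
    rw [h.eq φ hφ, Pi.mul_apply]
    by_cases hx : ρ ≤ x
    · rw [zz_apply_of_le hx, one_mul]
      simp [hx, bR]
    · rw [zz_apply_of_not hx, zero_mul]
      simp [hx]
  · exact ⟨fun _ => 0, by rw [h.out φ hφ]; funext x; simp⟩

/-- The relation between the labels of three formulas. -/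
theorem kill3 (h : YData In ρ n W f y) {φ a b : Fm α} (hφ : In φ) (ha : In a) (hb : In b)
    (F : Bool → Bool → Bool)
    (hT : ∀ κ, ρ ≤ κ → cost ρ κ ≤ 6 * n → ∀ t u v, Lab (W φ) t κ → Lab (W a) u κ →
      Lab (W b) v κ → t = F u v) {r g D : ℕ} {R : Mt V → ℝ} (hR : R ∈ Deg ρ r)
    (hx : ∀ x, ρ ≤ x → ∀ u v, f φ x = F u v → f a x = u → f b x = v → R x = 0)
    (hD : g + r + 6 * n ≤ D) : Kill ρ D g R := by
  let Q : Fm α → Mt V → Prop := fun φ κ => ∃ b, Lab (W φ) b κ ∧ ∀ x, κ ≤ x → f φ x = b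
  have hQup : ∀ φ κ κ', κ ≤ κ' → Q φ κ → Q φ κ' := by
    rintro φ κ κ' hle ⟨b, hb, hx⟩
    exact ⟨b, hb.mono hle, fun x hκx => hx x (hle.trans hκx)⟩
  have hQr : ∀ φ, In φ → Rch (Q φ) n ρ := fun φ hφ => (h.tree φ hφ).rch
  refine kill_of_rch (n := n + (n + n)) (r := r)
    ((hQr _ hφ).and (hQup _) (fun κ κ' hle hk => ⟨hQup _ _ _ hle hk.1, hQup _ _ _ hle hk.2⟩)
      ((hQr _ ha).and (hQup _) (hQup _) (hQr _ hb))) hR (by omega) ?_
  rintro κ hκ hc ⟨⟨t, ht, hxt⟩, ⟨u, hu, hxu⟩, ⟨v, hv, hxv⟩⟩ x hκx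
  have h10 := hT κ hκ (by omega) t u v ht hu hv
  exact hx x (hκ.trans hκx) u v (by rw [hxt x hκx, h10]) (hxu x hκx) (hxv x hκx)

/-- A formula with constant label. -/
theorem kill1 (h : YData In ρ n W f y) {φ : Fm α} (hφ : In φ) (t₀ : Bool)
    (hT : ∀ κ, ρ ≤ κ → cost ρ κ ≤ 2 * n → ∀ t, Lab (W φ) t κ → t = t₀) {g D : ℕ}
    (hD : g + 4 * n ≤ D) : Kill ρ D g (y φ - fun _ => bR t₀) := by
  refine kill_of_rch (n := n) (r := 2 * n) (h.tree φ hφ).rch
    (Submodule.sub_mem _ (h.mem φ) (const_mem _)) (by omega) ?_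
  rintro κ hκ hc ⟨t, ht, hxt⟩ x hκx
  rw [Pi.sub_apply, h.apply hφ (hκ.trans hκx), hxt x hκx, hT κ hκ hc t ht, sub_self]

/-- The conjunction relation. -/
theorem kill_and (h : YData In ρ n W f y) {φ a b : Fm α} (hφ : In φ) (ha : In a) (hb : In b)
    (hT : ∀ κ, ρ ≤ κ → cost ρ κ ≤ 6 * n → ∀ t u v, Lab (W φ) t κ → Lab (W a) u κ →
      Lab (W b) v κ → t = (u && v)) {g D : ℕ} (hD : g + 10 * n ≤ D) :
    Kill ρ D g (y φ - y a * y b) := by
  refine h.kill3 hφ ha hb (fun u v => u && v) hT (r := 4 * n)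
    (Submodule.sub_mem _ (Deg.mono (by omega) (h.mem φ))
      (Deg.mono (by omega) (Deg.mul (h.mem a) (h.mem b)))) ?_ (by omega)
  intro x hx u v h1 h2 h3
  simp only [Pi.sub_apply, Pi.mul_apply]
  rw [h.apply hφ hx, h.apply ha hx, h.apply hb hx, h1, h2, h3, bR_and]
  ring

/-- The disjunction relation. -/
theorem kill_or (h : YData In ρ n W f y) {φ a b : Fm α} (hφ : In φ) (ha : In a) (hb : In b)
    (hT : ∀ κ, ρ ≤ κ → cost ρ κ ≤ 6 * n → ∀ t u v, Lab (W φ) t κ → Lab (W a) u κ →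
      Lab (W b) v κ → t = (u || v)) {g D : ℕ} (hD : g + 10 * n ≤ D) :
    Kill ρ D g (y φ - (y a + y b - y a * y b)) := by
  refine h.kill3 hφ ha hb (fun u v => u || v) hT (r := 4 * n)
    (Submodule.sub_mem _ (Deg.mono (by omega) (h.mem φ))
      (Submodule.sub_mem _ (Submodule.add_mem _ (Deg.mono (by omega) (h.mem a))
        (Deg.mono (by omega) (h.mem b)))
        (Deg.mono (by omega) (Deg.mul (h.mem a) (h.mem b))))) ?_ (by omega)
  intro x hx u v h1 h2 h3
  simp only [Pi.sub_apply, Pi.add_apply, Pi.mul_apply]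
  rw [h.apply hφ hx, h.apply ha hx, h.apply hb hx, h1, h2, h3, bR_or]
  ring

/-- The implication relation. -/
theorem kill_imp (h : YData In ρ n W f y) {φ a b : Fm α} (hφ : In φ) (ha : In a) (hb : In b)
    (hT : ∀ κ, ρ ≤ κ → cost ρ κ ≤ 6 * n → ∀ t u v, Lab (W φ) t κ → Lab (W a) u κ →
      Lab (W b) v κ → t = (!u || v)) {g D : ℕ} (hD : g + 10 * n ≤ D) :
    Kill ρ D g (y φ - (1 - y a + y a * y b)) := by
  refine h.kill3 hφ ha hb (fun u v => !u || v) hT (r := 4 * n)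
    (Submodule.sub_mem _ (Deg.mono (by omega) (h.mem φ))
      (Submodule.add_mem _ (Submodule.sub_mem _ one_mem (Deg.mono (by omega) (h.mem a)))
        (Deg.mono (by omega) (Deg.mul (h.mem a) (h.mem b))))) ?_ (by omega)
  intro x hx u v h1 h2 h3
  simp only [Pi.sub_apply, Pi.add_apply, Pi.mul_apply, Pi.one_apply]
  rw [h.apply hφ hx, h.apply ha hx, h.apply hb hx, h1, h2, h3, bR_or, bR_not]
  ring

/-- The negation relation. -/
theorem kill_neg (h : YData In ρ n W f y) {φ a : Fm α} (hφ : In φ) (ha : In a)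
    (hT : ∀ κ, ρ ≤ κ → cost ρ κ ≤ 6 * n → ∀ t u, Lab (W φ) t κ → Lab (W a) u κ →
      t = !u) {g D : ℕ} (hD : g + 10 * n ≤ D) :
    Kill ρ D g (y φ - (1 - y a)) := by
  refine h.kill3 hφ ha ha (fun u _ => !u) (fun κ h1 h2 t u _ h3 h4 _ => hT κ h1 h2 t u h3 h4)
    (r := 4 * n) (Submodule.sub_mem _ (Deg.mono (by omega) (h.mem φ))
      (Submodule.sub_mem _ one_mem (Deg.mono (by omega) (h.mem a)))) ?_ (by omega)
  intro x hx u v h1 h2 _
  simp only [Pi.sub_apply, Pi.one_apply]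
  rw [h.apply hφ hx, h.apply ha hx, h1, h2, bR_not]
  ring

/-- Above a state with the value `false` the function vanishes. -/
theorem eq_zero (h : YData In ρ n W f y) (hW : ∀ φ, In φ → ∀ a b, a ≤ b → W φ false a →
    W φ false b) {φ : Fm α} (hφ : In φ) {b : Mt V} (hb : W φ false b) (hρ : ρ ≤ b) {D : ℕ}
    {L : (Mt V → ℝ) →ₗ[ℝ] ℝ} (hL : PF b D L) (hD : 2 * n ≤ D) : L (y φ) = 0 := by
  rw [← hL.base _ (Deg.mono hD (Deg.anti hρ (h.mem φ))), mul_zz_eq_zero, map_zero]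
  intro x hx
  rw [h.apply hφ (hρ.trans hx), (h.tree φ hφ).eq_false (hW φ hφ) hb x (hρ.trans hx) hx, bR_false]

end YData

end AcFrege
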