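import Pool.Agent.Work.MP_c07f0d_lc.Defs
import Mathlib.Algebra.MvPolynomial.Variables
import Mathlib.Data.Real.Basic

/-!
# Frege derivations with algebraic inferences

The formulas are used as the variables of polynomials; the variable `φ` stands for the truth value
(`0` or `1`) of the formula `φ`.
-/

namespace SosFrege

open FregeEF MvPolynomial

variable {α : Type}

/-- The polynomials with coefficients in `K` which vanish because the variables are the truth
values of the formulas of `Φ`, and because the formulas of `Δ` are true. -/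
inductive TruthRel (K : Type) [CommRing K] (Φ : Finset (Fm α)) (Δ : List (Fm α)) :
    MvPolynomial (Fm α) K → Prop
  | bool (φ : Fm α) : φ ∈ Φ → TruthRel K Φ Δ (X φ ^ 2 - X φ)
  | bot : Fm.bot ∈ Φ → TruthRel K Φ Δ (X .bot)
  | neg (a : Fm α) : Fm.neg a ∈ Φ → TruthRel K Φ Δ (X (.neg a) - (1 - X a))
  | and (a b : Fm α) : Fm.and a b ∈ Φ → TruthRel K Φ Δ (X (.and a b) - X a * X b)
  | or (a b : Fm α) : Fm.or a b ∈ Φ → TruthRel K Φ Δ (X (.or a b) - (X a + X b - X a * X b))
  | imp (a b : Fm α) : Fm.imp a b ∈ Φ → TruthRel K Φ Δ (X (.imp a b) - (1 - X a + X a * X b))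
  | hyp (ψ : Fm α) : ψ ∈ Δ → TruthRel K Φ Δ (X ψ - 1)

/-- The polynomial has only variables from `Φ`. -/
def Over {K : Type} [CommRing K] (Φ : Finset (Fm α)) (g : MvPolynomial (Fm α) K) : Prop :=
  ∀ φ ∈ g.vars, φ ∈ Φ

/-- The number of monomials of a polynomial. -/
def nmon {K : Type} [CommRing K] (g : MvPolynomial (Fm α) K) : ℕ := g.support.card

/-- `φ` is inferred from `Δ` by an identity `φ - 1 = ∑ h * p` of polynomials over `K`, in which
the `p` are truth relations and the `h` are polynomials, of any degree, with altogether at most `T`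
monomials and with variables in `Φ`. -/
def AlgInfers (K : Type) [CommRing K] (Φ : Finset (Fm α)) (T : ℕ) (Δ : List (Fm α)) (φ : Fm α) :
    Prop :=
  ∃ H : List (MvPolynomial (Fm α) K × MvPolynomial (Fm α) K),
    (∀ q ∈ H, Over Φ q.1 ∧ TruthRel K Φ Δ q.2) ∧
    (H.map fun q => nmon q.1).sum ≤ T ∧
    X φ - 1 = (H.map fun q => q.1 * q.2).sum

/-- `φ` is inferred from `Δ` by an identity `φ - 1 = ∑ g ^ 2 + ∑ h * p` of real polynomials, in
which the `p` are truth relations and the `g` and `h` are polynomials, of any degree, with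
altogether at most `T` monomials and with variables in `Φ`. -/
def SosInfers (Φ : Finset (Fm α)) (T : ℕ) (Δ : List (Fm α)) (φ : Fm α) : Prop :=
  ∃ (G : List (MvPolynomial (Fm α) ℝ)) (H : List (MvPolynomial (Fm α) ℝ × MvPolynomial (Fm α) ℝ)),
    (∀ g ∈ G, Over Φ g) ∧ (∀ q ∈ H, Over Φ q.1 ∧ TruthRel ℝ Φ Δ q.2) ∧
    (G.map fun g => nmon g).sum + (H.map fun q => nmon q.1).sum ≤ T ∧
    X φ - 1 = (G.map fun g => g ^ 2).sum + (H.map fun q => q.1 * q.2).sum

/-- The list of lines `L`, read from its last entry to its first entry, is a derivation from the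
hypotheses `Γ`: every line is a hypothesis, or follows from earlier lines by one of the rules `R`,
by a sum-of-squares inference, or by an algebraic inference over a commutative ring in which `2` is
not nilpotent (for instance a field whose characteristic is not `2`). -/
inductive IsAlgDeriv (R : List Rule) (Γ : List (Fm α)) (Φ : Finset (Fm α)) (T : ℕ) :
    List (Fm α) → Prop
  | nil : IsAlgDeriv R Γ Φ T []
  | hyp {L : List (Fm α)} {φ : Fm α} : IsAlgDeriv R Γ Φ T L → φ ∈ Γ → IsAlgDeriv R Γ Φ T (φ :: L)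
  | step {L : List (Fm α)} {φ : Fm α} :
      IsAlgDeriv R Γ Φ T L → Infers R L φ → IsAlgDeriv R Γ Φ T (φ :: L)
  | sos {L : List (Fm α)} {φ : Fm α} :
      IsAlgDeriv R Γ Φ T L → SosInfers Φ T L φ → IsAlgDeriv R Γ Φ T (φ :: L)
  | alg {L : List (Fm α)} {φ : Fm α} (K : Type) [CommRing K] (hK : ∀ m : ℕ, (2 : K) ^ m ≠ 0) :
      IsAlgDeriv R Γ Φ T L → AlgInfers K Φ T L φ → IsAlgDeriv R Γ Φ T (φ :: L)

end SosFrege
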