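import Pool.Agent.Work.MP_c07f0d_lc.SOS.World
import Pool.Agent.Work.MP_c07f0d_lc.SOS.MonDef
import Pool.Agent.Work.MP_c07f0d_lc.AC.Sound

/-!
# Soundness of the derivations with algebraic inferences
-/

set_option linter.unusedSectionVars false

namespace AcFrege

open FregeEF SosFrege MvPolynomial

variable {α V : Type} [DecidableEq α] [Fintype V] [DecidableEq V]

/-- The functional over another ring. -/
theorem LamOk.toRing {K : Type} [CommRing K] {Φ : Finset (Fm α)} {Δ : List (Fm α)}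
    {M : Finset (Finset (Fm α))} {Λ : Finset (Fm α) → ℝ} (h : LamOk Φ Δ M Λ) {k : ℕ}
    {z : Finset (Fm α) → ℤ} (hz : ∀ S, (2 : ℝ) ^ k * Λ S = z S) :
    LamOk Φ Δ M (fun S => ((z S : ℤ) : K)) where
  bot hb S hS := by
    have h1 : z (insert .bot S) = 0 := by
      have h2 := hz (insert .bot S)
      rw [h.bot hb S hS, mul_zero] at h2
      exact_mod_cast h2.symm
    simp only [h1, Int.cast_zero]
  neg a ha S hS := by
    have h1 : z (insert (.neg a) S) = z S - z (insert a S) := by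
      have h2 : ((z (insert (.neg a) S) : ℤ) : ℝ) = ((z S - z (insert a S) : ℤ) : ℝ) := by
        push_cast
        rw [← hz, ← hz, ← hz, h.neg a ha S hS]
        ring
      exact_mod_cast h2
    simp only [h1, Int.cast_sub]
  and a b hab S hS := by
    have h1 : z (insert (.and a b) S) = z (insert a (insert b S)) := by
      have h2 : ((z (insert (.and a b) S) : ℤ) : ℝ) = ((z (insert a (insert b S)) : ℤ) : ℝ) := by
        rw [← hz, ← hz, h.and a b hab S hS]
      exact_mod_cast h2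
    simp only [h1]
  or a b hab S hS := by
    have h1 : z (insert (.or a b) S) =
        z (insert a S) + z (insert b S) - z (insert a (insert b S)) := by
      have h2 : ((z (insert (.or a b) S) : ℤ) : ℝ) =
          ((z (insert a S) + z (insert b S) - z (insert a (insert b S)) : ℤ) : ℝ) := by
        push_cast
        rw [← hz, ← hz, ← hz, ← hz, h.or a b hab S hS]
        ring
      exact_mod_cast h2
    simp only [h1, Int.cast_sub, Int.cast_add]
  imp a b hab S hS := by
    have h1 : z (insert (.imp a b) S) =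
        z S - z (insert a S) + z (insert a (insert b S)) := by
      have h2 : ((z (insert (.imp a b) S) : ℤ) : ℝ) =
          ((z S - z (insert a S) + z (insert a (insert b S)) : ℤ) : ℝ) := by
        push_cast
        rw [← hz, ← hz, ← hz, ← hz, h.imp a b hab S hS]
        ring
      exact_mod_cast h2
    simp only [h1, Int.cast_sub, Int.cast_add]
  hyp ψ hψ S hS := by
    have h1 : z (insert ψ S) = z S := by
      have h2 : ((z (insert ψ S) : ℤ) : ℝ) = ((z S : ℤ) : ℝ) := by
        rw [← hz, ← hz, h.hyp ψ hψ S hS]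
      exact_mod_cast h2
    simp only [h1]

omit [DecidableEq α] in
/-- All hypotheses are a derivation. -/
theorem isDeriv_hyps (R : List Rule) (L : List (Fm α)) : ∀ L' : List (Fm α), L' ⊆ L →
    IsDeriv R L L'
  | [], _ => .nil
  | φ :: L', h => .hyp (isDeriv_hyps R L L' fun x hx => h (List.mem_cons_of_mem _ hx))
      (h List.mem_cons_self)

/-- **No line of a derivation takes the value `false` above the base.** -/
theorem mon_sound {ρ : Mt V} {c : ℕ} {In : Fm α → Prop} {W : Fm α → Bool → Mt V → Prop}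
    {Φ : Finset (Fm α)} {M M₀ : Finset (Finset (Fm α))}
    (h : Sem (fun ν : Mt V => (free ν).card) ρ c In W) (hc : SubClosed In)
    (hΦ : ∀ φ ∈ Φ, In φ) (hW : WorldOk Φ M ρ c W) (hM : M₀ ⊆ M) (R : List Rule)
    (hR : ∀ r ∈ R, ∀ v : ℕ → Prop, (∀ p ∈ r.prem, p.eval v) → r.concl.eval v) {K : ℕ}
    (hK : ∀ r ∈ R, rsize r ≤ K) (hroom : (K + 4) * c ≤ (free ρ).card) {Γ L : List (Fm α)}
    (hL : IsMonDeriv R Γ Φ M₀ L) (hLΦ : ∀ φ ∈ L, φ ∈ Φ)
    (hΓ : ∀ φ ∈ Γ, φ ∈ Φ → ∀ a, ρ ≤ a → ¬ W φ false a) :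
    ∀ φ ∈ L, ∀ a, ρ ≤ a → ¬ W φ false a := by
  induction hL with
  | nil => intro φ hφ; simp at hφ
  | @hyp L φ hL hφ ih =>
    intro θ hθ a ha hV
    rcases List.mem_cons.1 hθ with rfl | hθ
    · exact hΓ _ hφ (hLΦ _ (by simp)) a ha hV
    · exact ih (fun ψ hψ => hLΦ ψ (by simp [hψ])) θ hθ a ha hV
  | @step L φ hL hφ ih =>
    have ih' := ih (fun ψ hψ => hLΦ ψ (by simp [hψ]))
    exact sem_deriv h hc R hR hK hroom (Γ := L)
      (IsDeriv.step (isDeriv_hyps R L L (List.Subset.refl L)) hφ)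
      (fun ψ hψ => hΦ ψ (hLΦ ψ hψ)) (fun ψ hψ _ => ih' ψ hψ)
  | @sos L φ G H hL hG hH hid ih =>
    have ih' := ih (fun ψ hψ => hLΦ ψ (by simp [hψ]))
    intro θ hθ a ha hV
    rcases List.mem_cons.1 hθ with rfl | hθ
    · have hφΦ := hLΦ _ (List.mem_cons_self (a := θ) (l := L))
      obtain ⟨b, hb1, hb2, hb3, hb4⟩ := h.small _ _ _ (hΦ _ hφΦ) ha hV
      obtain ⟨Λ, k, z, h1, h2, h3, h4, -⟩ := hW b hb1 hb4 L
        (fun ψ hψ => ⟨hLΦ ψ (by simp [hψ]), ih' ψ hψ⟩)
      have h5 := sos_sound h1 h2 G H (fun g hg m hm => hM (hG g hg m hm))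
        (fun q hq => ⟨fun m hm => hM ((hH q hq).1 m hm), (hH q hq).2⟩) hid
      rw [h3, h4 _ hφΦ hb3] at h5
      exact absurd h5 (by norm_num)
    · exact ih' θ hθ a ha hV
  | @alg L φ K' _ hK' H hL hH hid ih =>
    have ih' := ih (fun ψ hψ => hLΦ ψ (by simp [hψ]))
    intro θ hθ a ha hV
    rcases List.mem_cons.1 hθ with rfl | hθ
    · have hφΦ := hLΦ _ (List.mem_cons_self (a := θ) (l := L))
      obtain ⟨b, hb1, hb2, hb3, hb4⟩ := h.small _ _ _ (hΦ _ hφΦ) ha hV
      obtain ⟨Λ, k, z, h1, h2, h3, h4, h5⟩ := hW b hb1 hb4 L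
        (fun ψ hψ => ⟨hLΦ ψ (by simp [hψ]), ih' ψ hψ⟩)
      have h6 := alg_sound (h1.toRing (K := K') h5) H
        (fun q hq => ⟨fun m hm => hM ((hH q hq).1 m hm), (hH q hq).2⟩) hid
      have h7 : z {θ} = 0 := by
        have h8 := h5 {θ}
        rw [h4 _ hφΦ hb3, mul_zero] at h8
        exact_mod_cast h8.symm
      have h9 : z ∅ = 2 ^ k := by
        have h8 := h5 ∅
        rw [h3, mul_one] at h8
        exact_mod_cast h8.symm
      rw [h7, h9] at h6
      push_cast at h6
      exact hK' k h6.symm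
    · exact ih' θ hθ a ha hV

end AcFrege
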