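import Pool.Agent.Work.MP_c07f0d_lc.DG.PwDl
import Pool.Agent.Work.MP_c07f0d_lc.DG.PwVal
import Pool.Agent.Work.MP_c07f0d_lc.AC.LevDef

/-!
# Functions of matchings decided by few queries

A query asks for the partner of a vertex.  `Tr S n ν f` says that from the state `ν` the function
`f` of matchings is decided by `n` queries, and that the final states are labelled by `S`.
-/

set_option linter.unusedSectionVars false

namespace AcFrege

variable {V : Type} [Fintype V] [DecidableEq V]

theorem cost_self' (ρ : Mt V) : cost ρ ρ = 0 := by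
  unfold cost
  rw [Finset.card_eq_zero, Finset.filter_eq_empty_iff]
  intro v hv h
  exact h (mem_free.1 hv)

/-- The function `f` is decided by `n` queries from the state `ν`. -/
inductive Tr (S : Bool → Mt V → Prop) : ℕ → Mt V → (Mt V → Bool) → Prop
  | leaf (n : ℕ) (ν : Mt V) (b : Bool) (h : S b ν) : Tr S n ν (fun _ => b)
  | node (n : ℕ) (ν : Mt V) (v : V) (f : V → Mt V → Bool)
      (h : ∀ w, w ≠ v → ∀ hc : Compat ν (edge v w), Tr S n (ν.join (edge v w) hc) (f w)) :
      Tr S (n + 1) ν (fun x => if x v = v then false else f (x v) x)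

/-- States with the property `Q` are reached by `n` queries from the state `ν`. -/
inductive Rch (Q : Mt V → Prop) : ℕ → Mt V → Prop
  | done (n : ℕ) (ν : Mt V) (h : Q ν) : Rch Q n ν
  | node (n : ℕ) (ν : Mt V) (v : V)
      (h : ∀ w, w ≠ v → ∀ hc : Compat ν (edge v w), Rch Q n (ν.join (edge v w) hc)) :
      Rch Q (n + 1) ν

theorem Rch.mono {Q Q' : Mt V → Prop} {n : ℕ} {ν : Mt V} (h : Rch Q n ν)
    (hQ : ∀ κ, ν ≤ κ → Q κ → Q' κ) : Rch Q' n ν := by
  induction h with
  | done n ν h => exact .done n ν (hQ ν le_rfl h)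
  | node n ν v _ ih =>
    exact .node n ν v fun w hw hc => ih w hw hc fun κ hκ =>
      hQ κ ((Mt.le_join_left _ _ _).trans hκ)

theorem Rch.mono_nat {Q : Mt V → Prop} {n m : ℕ} {ν : Mt V} (h : Rch Q n ν) (hm : n ≤ m) :
    Rch Q m ν := by
  induction h generalizing m with
  | done n ν h => exact .done m ν h
  | node n ν v _ ih =>
    obtain ⟨m', rfl⟩ : ∃ m', m = m' + 1 := ⟨m - 1, by omega⟩
    exact .node m' ν v fun w hw hc => ih w hw hc (by omega)

theorem Rch.ext {Q : Mt V → Prop} (hQ : ∀ κ κ', κ ≤ κ' → Q κ → Q κ') {n : ℕ} {ν : Mt V}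
    (h : Rch Q n ν) : ∀ {ν' : Mt V}, ν ≤ ν' → Rch Q n ν' := by
  induction h with
  | done n ν h => exact fun {ν'} hle => .done n ν' (hQ _ _ hle h)
  | node n ν v _ ih =>
    intro ν' hle
    refine .node n ν' v fun w hw hc => ?_
    have hc' : Compat ν (edge v w) := hc.mono hle le_rfl
    exact ih w hw hc' (Mt.join_le _ (hle.trans (Mt.le_join_left _ _ _)) (Mt.le_join_right _ _ _))

theorem Rch.and {Q Q' : Mt V → Prop} (hQ : ∀ κ κ', κ ≤ κ' → Q κ → Q κ')
    (hQ' : ∀ κ κ', κ ≤ κ' → Q' κ → Q' κ') {n m : ℕ} {ν : Mt V} (h : Rch Q n ν)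
    (h' : Rch Q' m ν) : Rch (fun κ => Q κ ∧ Q' κ) (n + m) ν := by
  induction h with
  | done n ν h =>
    exact (h'.mono_nat (by omega : m ≤ n + m)).mono fun κ hκ hk => ⟨hQ _ _ hκ h, hk⟩
  | node n ν v _ ih =>
    have h1 : Rch (fun κ => Q κ ∧ Q' κ) (n + m + 1) ν :=
      .node (n + m) ν v fun w hw hc => ih w hw hc (h'.ext hQ' (Mt.le_join_left _ _ _))
    have e : n + 1 + m = n + m + 1 := by omega
    rw [e]
    exact h1

/-- If `H * zz κ` is killed at all states that are reached, then `H * zz ν` is killed. -/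
theorem Rch.kill {Q : Mt V → Prop} {n : ℕ} {ν : Mt V} (h : Rch Q n ν) {ρ : Mt V} {D g : ℕ}
    {L : (Mt V → ℝ) →ₗ[ℝ] ℝ} (hL : PF ρ D L) {H : Mt V → ℝ} (hH : H ∈ Deg ρ g) :
    ρ ≤ ν → g + cost ρ ν + 2 * n ≤ D → (∀ κ, ν ≤ κ → cost ρ κ ≤ cost ρ ν + 2 * n → Q κ →
      L (H * zz κ) = 0) → L (H * zz ν) = 0 := by
  induction h with
  | done n ν h => exact fun _ _ hk => hk ν le_rfl (by omega) h
  | node n ν v _ ih =>
    intro hρ hD hk
    have hmem : H * zz ν ∈ Deg ρ D :=
      Deg.mono (by omega) (Deg.mul hH (zz_mem (le_refl (cost ρ ν))))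
    rw [hL.sum_edge v hmem]
    refine Finset.sum_eq_zero fun w hw => ?_
    rw [Finset.mem_erase] at hw
    by_cases hc : Compat ν (edge v w)
    · have e : zz (edge v w) * (H * zz ν) = H * zz (ν.join (edge v w) hc) := by
        rw [← zz_mul_of_compat hc]
        ring
      have h2 : cost ρ (ν.join (edge v w) hc) ≤ cost ρ ν + 2 :=
        (cost_join_le ρ hc).trans (Nat.add_le_add_left (cost_edge_le ρ v w) _)
      rw [e]
      refine ih w hw.1 hc (hρ.trans (Mt.le_join_left _ _ _)) (by omega) fun κ hκ hcκ hQκ => ?_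
      exact hk κ ((Mt.le_join_left _ _ _).trans hκ) (by omega) hQκ
    · have e : zz (edge v w) * (H * zz ν) = H * (zz ν * zz (edge v w)) := by ring
      rw [e, zz_mul_of_not_compat hc, mul_zero, map_zero]

/-- The values of a decided function are constant above the states that are reached. -/
theorem Tr.rch {S : Bool → Mt V → Prop} {n : ℕ} {ν : Mt V} {f : Mt V → Bool}
    (h : Tr S n ν f) : Rch (fun κ => ∃ b, S b κ ∧ ∀ x, κ ≤ x → f x = b) n ν := by
  induction h with
  | leaf n ν b h => exact .done n ν ⟨b, h, fun _ _ => rfl⟩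
  | node n ν v f _ ih =>
    refine .node n ν v fun w hw hc => (ih w hw hc).mono fun κ hκ hk => ?_
    obtain ⟨b, hb, hx⟩ := hk
    refine ⟨b, hb, fun x hκx => ?_⟩
    have h1 : x v = w := by
      rw [← edge_le_iff (Ne.symm hw)]
      exact (Mt.le_join_right ν (edge v w) hc).trans (hκ.trans hκx)
    show (if x v = v then false else f (x v) x) = b
    rw [h1, if_neg hw]
    exact hx x hκx

/-- Decided functions have low degree. -/
theorem Tr.mem {S : Bool → Mt V → Prop} {n : ℕ} {ν : Mt V} {f : Mt V → Bool}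
    (h : Tr S n ν f) : zz ν * (fun x => bR (f x)) ∈ Deg ν (2 * n) := by
  induction h with
  | leaf n ν b h =>
    have e : zz ν * (fun _ : Mt V => bR b) = bR b • zz ν := by
      funext x
      simp [mul_comm]
    rw [e]
    exact Submodule.smul_mem _ _ (zz_mem (by rw [cost_self']; exact Nat.zero_le _))
  | node n ν v f _ ih =>
    have e : zz ν * (fun x : Mt V => bR (if x v = v then false else f (x v) x)) =
        ∑ w ∈ Finset.univ.erase v, zz (edge v w) * (zz ν * fun x => bR (f w x)) := by
      funext x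
      rw [Finset.sum_apply]
      simp only [Pi.mul_apply]
      by_cases hx : x v = v
      · rw [if_pos hx, bR_false, mul_zero]
        symm
        refine Finset.sum_eq_zero fun w hw => ?_
        rw [Finset.mem_erase] at hw
        rw [zz_apply_of_not, zero_mul]
        rw [edge_le_iff (Ne.symm hw.1), hx]
        exact Ne.symm hw.1
      · rw [if_neg hx, Finset.sum_eq_single (x v)]
        · rw [zz_apply_of_le ((edge_le_iff (Ne.symm hx) x).2 rfl), one_mul]
        · intro w hw hne
          rw [Finset.mem_erase] at hw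
          rw [zz_apply_of_not, zero_mul]
          rw [edge_le_iff (Ne.symm hw.1)]
          exact Ne.symm hne
        · intro hc
          exact absurd (Finset.mem_erase.2 ⟨hx, Finset.mem_univ _⟩) hc
    rw [e]
    refine Submodule.sum_mem _ fun w hw => ?_
    rw [Finset.mem_erase] at hw
    by_cases hc : Compat ν (edge v w)
    · have e2 : zz (edge v w) * (zz ν * fun x => bR (f w x)) =
          zz (edge v w) * (zz (ν.join (edge v w) hc) * fun x => bR (f w x)) := by
        rw [← zz_mul_of_compat hc]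
        conv_lhs => rw [← zz_sq (edge v w)]
        ring
      rw [e2]
      refine Deg.mono ?_ (zz_mul_mem hc (ih w hw.1 hc))
      have := cost_edge_le ν v w
      omega
    · have e2 : zz (edge v w) * (zz ν * fun x => bR (f w x)) =
          (zz ν * zz (edge v w)) * fun x => bR (f w x) := by ring
      rw [e2, zz_mul_of_not_compat hc, zero_mul]
      exact Submodule.zero_mem _

theorem Tr.mono_nat {S : Bool → Mt V → Prop} {n m : ℕ} {ν : Mt V} {f : Mt V → Bool}
    (h : Tr S n ν f) (hm : n ≤ m) : Tr S m ν f := by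
  induction h generalizing m with
  | leaf n ν b h => exact .leaf m ν b h
  | node n ν v f _ ih =>
    obtain ⟨m', rfl⟩ : ∃ m', m = m' + 1 := ⟨m - 1, by omega⟩
    exact .node m' ν v f fun w hw hc => ih w hw hc (by omega)

/-- Querying the vertices of a list. -/
theorem exists_tr_list {S : Bool → Mt V → Prop} {n : ℕ} (l : List V) :
    ∀ ν : Mt V, (∀ ν', ν ≤ ν' → (∀ v ∈ l, ν' v ≠ v) → ∃ f, Tr S n ν' f) →
      ∃ f, Tr S (n + l.length) ν f := by
  induction l with
  | nil =>
    intro ν h
    exact h ν le_rfl (by simp)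
  | cons v l ih =>
    intro ν h
    have h1 : ∀ w, ∃ f, w ≠ v → ∀ hc : Compat ν (edge v w),
        Tr S (n + l.length) (ν.join (edge v w) hc) f := by
      intro w
      by_cases hw : w ≠ v
      · by_cases hc : Compat ν (edge v w)
        · obtain ⟨f, hf⟩ := ih (ν.join (edge v w) hc) (by
            intro ν' hle hcov
            refine h ν' ((Mt.le_join_left _ _ _).trans hle) fun x hx => ?_
            rcases List.mem_cons.1 hx with rfl | hx
            · have h2 : edge x w ≤ ν' := (Mt.le_join_right _ _ _).trans hle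
              rw [edge_le_iff (Ne.symm hw)] at h2
              rw [h2]
              exact hw
            · exact hcov x hx)
          exact ⟨f, fun _ _ => hf⟩
        · exact ⟨fun _ => false, fun _ h2 => absurd h2 hc⟩
      · exact ⟨fun _ => false, fun h2 => absurd h2 hw⟩
    choose f hf using h1
    refine ⟨fun x => if x v = v then false else f (x v) x, ?_⟩
    rw [List.length_cons, ← add_assoc]
    exact .node _ ν v f hf

/-- The label `b` of a state: no extension has the value `!b`. -/
def Lab (W : Bool → Mt V → Prop) (b : Bool) (κ : Mt V) : Prop := ∀ κ', κ ≤ κ' → ¬ W (!b) κ'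

theorem Lab.mono {W : Bool → Mt V → Prop} {b : Bool} {κ κ' : Mt V} (h : Lab W b κ)
    (hle : κ ≤ κ') : Lab W b κ' := fun κ'' h2 => h κ'' (hle.trans h2)

theorem le_of_compat_of_cost {ν μ : Mt V} (h : Compat μ ν) (hc : cost ν μ = 0) : μ ≤ ν := by
  intro v hv
  unfold cost at hc
  rw [Finset.card_eq_zero, Finset.filter_eq_empty_iff] at hc
  have h1 : ν v ≠ v := by
    intro h2
    exact hc (mem_free.2 h2) hv
  exact (h v hv h1).symm

/-- The tree of two incompatible families of certificates. -/
theorem exists_tr {A : Bool → Set (Mt V)} {ρ : Mt V} {c : ℕ}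
    (h1 : ∀ μ ∈ A true, Compat μ ρ → cost ρ μ ≤ c)
    (hinc : ∀ μ ∈ A true, ∀ μ' ∈ A false, ¬ Compat μ μ') (m : ℕ) :
    ∀ ν, ρ ≤ ν → (∀ μ ∈ A false, Compat μ ν → cost ν μ ≤ m) →
      ∃ f, Tr (Lab fun b κ => ∃ μ ∈ A b, μ ≤ κ) (m * c) ν f := by
  induction m with
  | zero =>
    intro ν _ h0
    by_cases hex : ∃ μ ∈ A false, Compat μ ν
    · obtain ⟨μ, hμ, hc⟩ := hex
      have hle := le_of_compat_of_cost hc (Nat.le_zero.1 (h0 μ hμ hc))
      refine ⟨_, .leaf _ ν false ?_⟩
      rintro κ hκ ⟨μ', hμ', hle'⟩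
      exact hinc μ' hμ' μ hμ (Compat.of_le hle' (hle.trans hκ))
    · refine ⟨_, .leaf _ ν true ?_⟩
      rintro κ hκ ⟨μ', hμ', hle'⟩
      exact hex ⟨μ', hμ', Compat.of_le hle' hκ⟩
  | succ m ih =>
    intro ν hν h0
    by_cases hex : ∃ μ ∈ A true, Compat μ ν
    · obtain ⟨μ, hμ, hc⟩ := hex
      set l := ((free ν).filter fun v => μ v ≠ v).toList with hl
      have hlen : l.length ≤ c := by
        rw [hl, Finset.length_toList]
        exact (cost_anti_left hν).trans (h1 μ hμ (hc.mono le_rfl hν))
      obtain ⟨f, hf⟩ := exists_tr_list (S := Lab fun b κ => ∃ μ ∈ A b, μ ≤ κ) (n := m * c) l ν (by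
        intro ν' hle hcov
        refine ih ν' (hν.trans hle) fun μ₀ hμ₀ hc₀ => ?_
        have hlt : cost ν' μ₀ < cost ν μ₀ := by
          have h2 := hinc μ hμ μ₀ hμ₀
          unfold Compat at h2
          push Not at h2
          obtain ⟨v, hv1, hv2, hv3⟩ := h2
          have hvν : ν v = v := by
            by_contra hvc
            exact hv3 ((hc v hv1 hvc).trans ((hc₀.mono le_rfl hle) v hv2 hvc).symm)
          unfold cost
          refine Finset.card_lt_card (Finset.ssubset_iff_of_subset
            (Finset.filter_subset_filter _ (free_anti hle)) |>.2 ⟨v, ?_, ?_⟩)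
          · rw [Finset.mem_filter, mem_free]
            exact ⟨hvν, hv2⟩
          · rw [Finset.mem_filter, mem_free]
            intro h3
            refine hcov v ?_ h3.1
            rw [hl, Finset.mem_toList, Finset.mem_filter, mem_free]
            exact ⟨hvν, hv1⟩
        have := h0 μ₀ hμ₀ (hc₀.mono le_rfl hle)
        omega)
      refine ⟨f, ?_⟩
      have e : (m + 1) * c = m * c + c := by ring
      rw [e]
      exact hf.mono_nat (by omega)
    · refine ⟨_, .leaf _ ν false ?_⟩
      rintro κ hκ ⟨μ', hμ', hle'⟩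
      exact hex ⟨μ', hμ', Compat.of_le hle' hκ⟩

end AcFrege
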