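import Pool.Agent.Work.MP_c07f0d_lc.SOS.Lam
import Pool.Agent.Work.MP_c07f0d_lc.SOS.SFam
import Pool.Agent.Work.MP_c07f0d_lc.SOS.ConjSem
import Pool.Agent.Work.MP_c07f0d_lc.SOS.PXI
import Pool.Agent.Work.MP_c07f0d_lc.DG.Base

/-!
# The functional on sets of formulas

From the functions of matchings of the formulas we get, at every state near the base, a functional
on the sets of formulas (the conjunctions of their elements) which satisfies all truth relations.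
-/

set_option linter.unusedSectionVars false

namespace AcFrege

open FregeEF SosFrege

variable {α V : Type} [DecidableEq α] [Fintype V] [DecidableEq V]

/-- At every state near the base there is a functional on the sets of formulas. -/
def WorldOk (Φ : Finset (Fm α)) (M : Finset (Finset (Fm α))) (ρ : Mt V) (c : ℕ)
    (W : Fm α → Bool → Mt V → Prop) : Prop :=
  ∀ b, ρ ≤ b → (free ρ).card ≤ (free b).card + c → ∀ Δ : List (Fm α),
    (∀ ψ ∈ Δ, ψ ∈ Φ ∧ ∀ a, ρ ≤ a → ¬ W ψ false a) →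
    ∃ (Λ : Finset (Fm α) → ℝ) (k : ℕ) (z : Finset (Fm α) → ℤ), LamOk Φ Δ M Λ ∧ LamPos M Λ ∧
      Λ ∅ = 1 ∧ (∀ φ ∈ Φ, W φ false b → Λ {φ} = 0) ∧ ∀ S, (2 : ℝ) ^ k * Λ S = z S

/-- The labels of three formulas satisfy the truth table. -/
theorem labels_gate {ρ : Mt V} {c : ℕ} {In : Fm α → Prop} {W : Fm α → Bool → Mt V → Prop}
    (h : Sem (fun ν : Mt V => (free ν).card) ρ c In W) {φ a b : Fm α} (hφ : In φ) (ha : In a)
    (hb : In b) {F : Bool → Bool → Bool}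
    (hT : ∀ κ t u v, W φ t κ → W a u κ → W b v κ → t = F u v) {κ : Mt V} (hκ : ρ ≤ κ)
    (hroom : 5 * c ≤ (free κ).card) {t u v : Bool} (ht : Lab (W φ) t κ) (hu : Lab (W a) u κ)
    (hv : Lab (W b) v κ) : t = F u v := by
  obtain ⟨κ₁, h1, h2, h3⟩ := h.val_of_lab hφ hκ (by show 3 * c ≤ (free κ).card; omega) ht
  obtain ⟨κ₂, h4, h5, h6⟩ := h.val_of_lab ha (hκ.trans h1) (by omega) (hu.mono h1)
  obtain ⟨κ₃, h7, h8, h9⟩ := h.val_of_lab hb (hκ.trans (h1.trans h4)) (by omega)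
    (hv.mono (h1.trans h4))
  exact hT κ₃ t u v (h.mono _ _ _ _ hφ (h4.trans h7) h3) (h.mono _ _ _ _ ha h7 h6) h9

section

variable {ρ : Mt V} {c b₀ : ℕ} {In : Fm α → Prop} {A : Fm α → Bool → Set (Mt V)}
  {f : Fm α → Mt V → Bool} {y : Fm α → Mt V → ℝ} {Φ : Finset (Fm α)}
  {M M₂ : Finset (Finset (Fm α))} {θ : Finset (Fm α) → Fm α}

theorem YData.idem (hy : YData In ρ (c * c) (Val A) f y) {φ : Fm α} (hφ : In φ) :
    y φ * y φ = y φ := by
  rw [hy.eq φ hφ]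
  have h1 : (fun x : Mt V => bR (f φ x)) * (fun x => bR (f φ x)) = fun x => bR (f φ x) := by
    funext x
    exact bR_sq _
  calc zz ρ * (fun x => bR (f φ x)) * (zz ρ * fun x => bR (f φ x)) =
      (zz ρ * zz ρ) * ((fun x => bR (f φ x)) * fun x => bR (f φ x)) := by ring
    _ = zz ρ * fun x => bR (f φ x) := by rw [zz_sq, h1]

/-- **The functional on the sets of formulas.** -/
theorem world_ok (hodd : Odd (Fintype.card V))
    (hsem : Sem (fun ν : Mt V => (free ν).card) ρ c In (Val A))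
    (hy : YData In ρ (c * c) (Val A) f y) (hΦ : ∀ φ ∈ Φ, In φ)
    (hΦc : PClosed Φ) (hM2 : ∀ S ∈ M₂, S ⊆ Φ) (hθ : ∀ S ∈ M₂, In (θ S))
    (hC : ∀ S ∈ M₂, ConjOf (fun ν : Mt V => (free ν).card) ρ (Val A) b₀ (θ S) S)
    (h0 : ∅ ∈ M) (h1 : ∀ a ∈ Φ, {a} ∈ M) (h2 : ∀ a ∈ Φ, ∀ b ∈ Φ, {a, b} ∈ M)
    (hU : ∀ S ∈ M, ∀ S' ∈ M, S ∪ S' ∈ M₂)
    (hroom : 2 * b₀ + 6 * c + 6 * (c * c) ≤ (free ρ).card)
    (hroomD : 170723 * (14 * (c * c) + 1) ^ 3 + c ≤ (free ρ).card) :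
    WorldOk Φ M ρ c (Val A) := by
  intro b hρb hcb Δ hΔ
  obtain ⟨n, hn⟩ : ∃ n, n = c * c := ⟨_, rfl⟩
  obtain ⟨D, hDn⟩ : ∃ D, D = 14 * n := ⟨_, rfl⟩
  obtain ⟨L, hLb, k, hk⟩ := exists_PF_int b D (odd_free hodd b) (by rw [hDn, hn]; omega)
  have hL : PF ρ D L := hLb.of_le hρb
  rw [← hn] at hy hroom
  have hSM : ∀ S ∈ M, S ∈ M₂ := fun S hS => by
    have := hU S hS S hS
    rwa [Finset.union_self] at this
  have hmem : ∀ φ, y φ ∈ Deg ρ (2 * n) := hy.mem
  have hfree : ∀ κ, ρ ≤ κ → cost ρ κ ≤ 6 * n → 2 * b₀ + 6 * c ≤ (free κ).card := by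
    intro κ hκ hc
    have h3 := cost_add_free hκ
    omega
  have hidem : ∀ φ, In φ → y φ * y φ = y φ := fun φ hφ => (hn ▸ hy : YData In ρ (c * c) (Val A) f y).idem hφ
  have hmul : ∀ φ ψ, y φ * y ψ ∈ Deg ρ (4 * n) := fun φ ψ =>
    Deg.mono (by omega) (Deg.mul (hmem φ) (hmem ψ))
  -- the killed relations
  have kU : ∀ S ∈ M₂, ∀ S₁ ∈ M₂, ∀ S₂ ∈ M₂, S = S₁ ∪ S₂ →
      Kill ρ D (4 * n) (y (θ S) - y (θ S₁) * y (θ S₂)) := by
    intro S hS S₁ hS₁ S₂ hS₂ hSS
    refine hy.kill_and (hθ S hS) (hθ S₁ hS₁) (hθ S₂ hS₂) (fun κ hκ hc t u v ht hu hv => ?_)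
      (by omega)
    exact labels_conj hsem (hC S hS) (hC S₁ hS₁) (hC S₂ hS₂) hSS
      (fun φ hφ => hΦ φ (hM2 S hS hφ)) (hθ S hS) (hθ S₁ hS₁) (hθ S₂ hS₂) hκ (hfree κ hκ hc)
      ht hu hv
  have k1 : ∀ a ∈ Φ, Kill ρ D (4 * n) (y (θ {a}) - y a) := by
    intro a ha
    have hS := hSM _ (h1 a ha)
    have h3 := hy.kill_and (g := 4 * n) (D := D) (hθ _ hS) (hΦ a ha) (hΦ a ha)
      (fun κ hκ hc t u v ht hu hv =>
        labels_conj hsem (hC _ hS) (conjOf_self a _) (conjOf_self a _)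
          (Finset.union_self _).symm (fun φ hφ => hΦ φ (hM2 _ hS hφ)) (hθ _ hS) (hΦ a ha)
          (hΦ a ha) hκ (hfree κ hκ hc) ht hu hv) (by omega)
    rwa [hidem a (hΦ a ha)] at h3
  have k0 : Kill ρ D (4 * n) (y (θ ∅) - 1) := by
    have hS := hSM _ h0
    have h3 := hy.kill1 (g := 4 * n) (D := D) (hθ _ hS) true (fun κ hκ hc t ht => ?_) (by omega)
    · have e : (fun _ : Mt V => bR true) = 1 := by
        funext x
        simp
      rwa [e] at h3
    · have hr := hfree κ hκ (by omega)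
      obtain ⟨κ', g1, g2, g3⟩ := hsem.val_of_lab (hθ _ hS) hκ
        (by show 3 * c ≤ (free κ).card; omega) ht
      cases t with
      | true => rfl
      | false =>
        obtain ⟨_, _, _, φ, hφ, _⟩ := (hC _ hS).fls κ' (hκ.trans g1)
          (by show b₀ ≤ (free κ').card; omega) g3
        exact absurd hφ (Finset.notMem_empty φ)
  -- the functional
  obtain ⟨Λ, hΛ⟩ : ∃ Λ : Finset (Fm α) → ℝ, Λ = fun S => L (y (θ S)) := ⟨_, rfl⟩
  have hΛ' : ∀ S, Λ S = L (y (θ S)) := fun S => by rw [hΛ]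
  have use : ∀ {R G : Mt V → ℝ}, Kill ρ D (4 * n) R → G ∈ Deg ρ (4 * n) → L (G * R) = 0 :=
    fun hR hG => hR L hL _ hG
  have hm4 : ∀ φ, y φ ∈ Deg ρ (4 * n) := fun φ => Deg.mono (by omega) (hmem φ)
  have E0 : Λ ∅ = 1 := by
    have h3 := use k0 (one_mem (π := ρ))
    rw [one_mul, map_sub, hL.one] at h3
    rw [hΛ']
    linarith
  have EU : ∀ S ∈ M, ∀ S' ∈ M, Λ (S ∪ S') = L (y (θ S) * y (θ S')) := by
    intro S hS S' hS'
    have h3 := use (kU _ (hU S hS S' hS') S (hSM S hS) S' (hSM S' hS') rfl) (one_mem (π := ρ))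
    rw [one_mul, map_sub] at h3
    rw [hΛ']
    linarith
  have E1 : ∀ a ∈ Φ, ∀ S ∈ M, Λ (insert a S) = L (y (θ S) * y a) := by
    intro a ha S hS
    have e : insert a S = S ∪ {a} := by rw [Finset.union_comm, Finset.insert_eq]
    rw [e, EU S hS _ (h1 a ha)]
    have h3 := use (k1 a ha) (hm4 (θ S))
    rw [mul_sub, map_sub] at h3
    linarith
  have E2 : ∀ a ∈ Φ, ∀ b ∈ Φ, ∀ S ∈ M, Λ (insert a (insert b S)) = L (y (θ S) * (y a * y b)) := by
    intro a ha b hb S hS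
    have e : insert a (insert b S) = S ∪ {a, b} := by
      ext x
      simp only [Finset.mem_insert, Finset.mem_union, Finset.mem_singleton]
      tauto
    have e2 : ({a, b} : Finset (Fm α)) = {a} ∪ {b} := rfl
    rw [e, EU S hS _ (h2 a ha b hb)]
    have h3 := use (kU _ (hSM _ (h2 a ha b hb)) _ (hSM _ (h1 a ha)) _ (hSM _ (h1 b hb)) e2)
      (hm4 (θ S))
    have h4 := use (k1 b hb) (hmul (θ S) (θ {a}))
    have h5 := use (k1 a ha) (hmul (θ S) b)
    rw [mul_sub, map_sub] at h3 h4 h5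
    have e3 : y (θ S) * (y (θ {a}) * y (θ {b})) = y (θ S) * y (θ {a}) * y (θ {b}) := by ring
    have e4 : y (θ S) * y (θ {a}) * y b = y (θ S) * y b * y (θ {a}) := by ring
    have e5 : y (θ S) * (y a * y b) = y (θ S) * y b * y a := by ring
    rw [e3] at h3
    rw [e4] at h4
    rw [e5]
    linarith
  have hgr : ∀ κ, ρ ≤ κ → cost ρ κ ≤ 6 * n → 5 * c ≤ (free κ).card := fun κ hκ hc => by
    have := hfree κ hκ hc
    omega
  have hint : ∀ S, ∃ z : ℤ, (2 : ℝ) ^ k * Λ S = z := by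
    intro S
    obtain ⟨g, hg⟩ := hy.int (θ S)
    obtain ⟨z, hz⟩ := hk g
    exact ⟨z, by rw [hΛ', hg]; exact hz⟩
  choose z hz using hint
  refine ⟨Λ, k, z, ⟨?_, ?_, ?_, ?_, ?_, ?_⟩, ?_, E0, ?_, hz⟩
  · -- bot
    intro hbot S hS
    have hIn := hΦ _ hbot
    rw [E1 _ hbot S hS]
    have h3 := use (hy.kill1 (g := 4 * n) (D := D) hIn false (fun κ hκ hc t ht => by
      obtain ⟨κ', g1, g2, g3⟩ := hsem.val_of_lab hIn hκ
        (by have := hgr κ hκ (by omega); show 3 * c ≤ (free κ).card; omega) ht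
      cases t with
      | false => rfl
      | true => exact (hsem.bot κ' hIn g3).elim) (by omega)) (hm4 (θ S))
    have e : (fun _ : Mt V => bR false) = 0 := by
      funext x
      simp
    rwa [e, sub_zero] at h3
  · -- neg
    intro a hφ S hS
    have ha := hΦc.neg a hφ
    rw [E1 _ hφ S hS, E1 a ha S hS, hΛ']
    have h3 := use (hy.kill_neg (g := 4 * n) (D := D) (hΦ _ hφ) (hΦ a ha)
      (fun κ hκ hc t u ht hu => labels_gate hsem (hΦ _ hφ) (hΦ a ha) (hΦ a ha)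
        (F := fun u _ => !u) (fun κ t u v g1 g2 _ => hsem.neg a κ t u (hΦ _ hφ) g1 g2) hκ
        (hgr κ hκ hc) ht hu hu) (by omega)) (hm4 (θ S))
    have e : y (θ S) * (y (.neg a) - (1 - y a)) =
        y (θ S) * y (.neg a) - y (θ S) + y (θ S) * y a := by ring
    rw [e, map_add, map_sub] at h3
    linarith
  · -- and
    intro a b' hφ S hS
    have hab := hΦc.and a b' hφ
    rw [E1 _ hφ S hS, E2 a hab.1 b' hab.2 S hS]
    have h3 := use (hy.kill_and (g := 4 * n) (D := D) (hΦ _ hφ) (hΦ a hab.1) (hΦ b' hab.2)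
      (fun κ hκ hc t u v ht hu hv => labels_gate hsem (hΦ _ hφ) (hΦ a hab.1) (hΦ b' hab.2)
        (F := fun u v => u && v)
        (fun κ t u v g1 g2 g3 => hsem.and a b' κ t u v (hΦ _ hφ) g1 g2 g3) hκ
        (hgr κ hκ hc) ht hu hv) (by omega)) (hm4 (θ S))
    rw [mul_sub, map_sub] at h3
    linarith
  · -- or
    intro a b' hφ S hS
    have hab := hΦc.or a b' hφ
    rw [E1 _ hφ S hS, E2 a hab.1 b' hab.2 S hS, E1 a hab.1 S hS, E1 b' hab.2 S hS]
    have h3 := use (hy.kill_or (g := 4 * n) (D := D) (hΦ _ hφ) (hΦ a hab.1) (hΦ b' hab.2)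
      (fun κ hκ hc t u v ht hu hv => labels_gate hsem (hΦ _ hφ) (hΦ a hab.1) (hΦ b' hab.2)
        (F := fun u v => u || v)
        (fun κ t u v g1 g2 g3 => hsem.or a b' κ t u v (hΦ _ hφ) g1 g2 g3) hκ
        (hgr κ hκ hc) ht hu hv) (by omega)) (hm4 (θ S))
    have e : y (θ S) * (y (.or a b') - (y a + y b' - y a * y b')) =
        y (θ S) * y (.or a b') - (y (θ S) * y a + y (θ S) * y b' - y (θ S) * (y a * y b')) := by
      ring
    rw [e, map_sub, map_sub, map_add] at h3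
    linarith
  · -- imp
    intro a b' hφ S hS
    have hab := hΦc.imp a b' hφ
    rw [E1 _ hφ S hS, E2 a hab.1 b' hab.2 S hS, E1 a hab.1 S hS, hΛ']
    have h3 := use (hy.kill_imp (g := 4 * n) (D := D) (hΦ _ hφ) (hΦ a hab.1) (hΦ b' hab.2)
      (fun κ hκ hc t u v ht hu hv => labels_gate hsem (hΦ _ hφ) (hΦ a hab.1) (hΦ b' hab.2)
        (F := fun u v => !u || v)
        (fun κ t u v g1 g2 g3 => hsem.imp a b' κ t u v (hΦ _ hφ) g1 g2 g3) hκ
        (hgr κ hκ hc) ht hu hv) (by omega)) (hm4 (θ S))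
    have e : y (θ S) * (y (.imp a b') - (1 - y a + y a * y b')) =
        y (θ S) * y (.imp a b') - (y (θ S) - y (θ S) * y a + y (θ S) * (y a * y b')) := by
      ring
    rw [e, map_sub, map_add, map_sub] at h3
    linarith
  · -- hyp
    intro ψ hψ S hS
    obtain ⟨hψΦ, hnf⟩ := hΔ ψ hψ
    have hIn := hΦ _ hψΦ
    rw [E1 _ hψΦ S hS, hΛ']
    have h3 := use (hy.kill1 (g := 4 * n) (D := D) hIn true (fun κ hκ hc t ht => by
      obtain ⟨κ', g1, g2, g3⟩ := hsem.val_of_lab hIn hκ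
        (by have := hgr κ hκ (by omega); show 3 * c ≤ (free κ).card; omega) ht
      cases t with
      | true => rfl
      | false => exact (hnf κ' (hκ.trans g1) g3).elim) (by omega)) (hm4 (θ S))
    have e : (fun _ : Mt V => bR true) = 1 := by
      funext x
      simp
    rw [e, mul_sub, mul_one, map_sub] at h3
    linarith
  · -- positivity
    intro w
    have h3 : ∑ S ∈ M, ∑ S' ∈ M, w S * w S' * Λ (S ∪ S') =
        L ((∑ S ∈ M, w S • y (θ S)) * (∑ S ∈ M, w S • y (θ S))) := by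
      rw [Finset.sum_mul_sum, map_sum]
      refine Finset.sum_congr rfl fun S hS => ?_
      rw [map_sum]
      refine Finset.sum_congr rfl fun S' hS' => ?_
      rw [EU S hS S' hS', smul_mul_smul_comm, map_smul, smul_eq_mul]
    rw [h3]
    refine hL.pos _ (Submodule.sum_mem _ fun S _ => Submodule.smul_mem _ _ ?_)
    exact Deg.mono (by omega) (hmem (θ S))
  · -- false formulas
    intro φ hφ hfalse
    have h3 := use (k1 φ hφ) (one_mem (π := ρ))
    rw [one_mul, map_sub] at h3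
    have h4 := hy.eq_zero (fun φ hφ a b hab h => hsem.mono φ false a b hφ hab h) (hΦ φ hφ)
      hfalse hρb hLb (by omega)
    rw [hΛ']
    linarith

end

end AcFrege
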